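import Pool.Agent.H1.MV.VC

set_option autoImplicit false
set_option linter.unusedSectionVars false
set_option linter.unusedSimpArgs false

/-!
# Classes which come from vertex groups, for arbitrary coefficient rings
-/

namespace Pool.Agent.H1.MK

open Matrix TH57.Thr Pool.Agent.K4H37.MT Pool.Agent.H1.MV

section tg

/-- the units `± g` -/
def TG (k : Type) [Ring k] (G : Type) [Group G] : Subgroup (MonoidAlgebra k G)ˣ where
  carrier := {u | ∃ (g : G) (ε : ℤˣ), (u : MonoidAlgebra k G) =
    MonoidAlgebra.single g (((ε : ℤ) : k))}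
  mul_mem' := by
    rintro u v ⟨g, ε, hu⟩ ⟨h, δ, hv⟩
    refine ⟨g * h, ε * δ, ?_⟩
    rw [Units.val_mul, hu, hv, MonoidAlgebra.single_mul_single, Units.val_mul, Int.cast_mul]
  one_mem' := ⟨1, 1, by rw [Units.val_one, Units.val_one, Int.cast_one]; rfl⟩
  inv_mem' := by
    rintro u ⟨g, ε, hu⟩
    refine ⟨g⁻¹, ε, ?_⟩
    apply Units.inv_eq_of_mul_eq_one_left
    rw [hu, MonoidAlgebra.single_mul_single, inv_mul_cancel, ← Int.cast_mul,
      Int.units_coe_mul_self, Int.cast_one]
    rfl

variable {k : Type} [Ring k] {G : Type} [Group G]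

/-- the unit `± g` -/
noncomputable def tg (k : Type) [Ring k] {G : Type} [Group G] (g : G) (ε : ℤˣ) :
    (MonoidAlgebra k G)ˣ where
  val := MonoidAlgebra.single g ((ε : ℤ) : k)
  inv := MonoidAlgebra.single g⁻¹ ((ε : ℤ) : k)
  val_inv := by
    rw [MonoidAlgebra.single_mul_single, mul_inv_cancel, ← Int.cast_mul,
      Int.units_coe_mul_self, Int.cast_one]
    rfl
  inv_val := by
    rw [MonoidAlgebra.single_mul_single, inv_mul_cancel, ← Int.cast_mul,
      Int.units_coe_mul_self, Int.cast_one]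
    rfl

theorem tg_mem (g : G) (ε : ℤˣ) : tg k g ε ∈ TG k G := ⟨g, ε, rfl⟩

variable {U : Subgroup (MonoidAlgebra k G)ˣ} {κ : Type} [Fintype κ] [DecidableEq κ]

theorem tt_perm (hU : TG k G ≤ U) (e : Equiv.Perm κ) :
    TT U (pu e : (Matrix κ κ (MonoidAlgebra k G))ˣ) := by
  have h1 := TT_map (TU G) U (MonoidAlgebra.mapRingHom G (Int.castRingHom k)) (by
    rintro u ⟨g, ε, hu⟩
    apply hU
    refine ⟨g, ε, ?_⟩
    change MonoidAlgebra.mapRingHom G (Int.castRingHom k) u.val = _
    rw [hu]
    simp) _ (TT_perm (G := G) e)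
  convert h1 using 1
  apply Units.ext
  ext1 i j
  change (pu e : (Matrix κ κ (MonoidAlgebra k G))ˣ).val i j =
    MonoidAlgebra.mapRingHom G (Int.castRingHom k) ((pu e : (Matrix κ κ (MonoidAlgebra ℤ G))ˣ).val i j)
  rw [pu_apply, pu_apply]
  by_cases h : e i = j
  · rw [if_pos h, if_pos h, map_one]
  · rw [if_neg h, if_neg h, map_zero]

theorem tt_dg (hU : TG k G ≤ U) (c : κ → G) : TT U (dg k c) := by
  have h1 : Triv U (dg k c).val := by
    apply triv_tri _ (fun _ => 0)
    · intro i j hij h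
      exfalso
      apply h
      exact Matrix.diagonal_apply_ne _ hij
    · intro i
      refine ⟨tg k (c i) 1, hU (tg_mem _ _), ?_⟩
      refine (Matrix.diagonal_apply_eq _ _).trans ?_
      change _ = MonoidAlgebra.single (c i) (((1 : ℤˣ) : ℤ) : k)
      rw [Units.val_one, Int.cast_one]
  obtain ⟨w, hw, hT⟩ := h1
  have : w = dg k c := Units.ext hw
  rw [← this]; exact hT

end tg

section vc

variable {k : Type} [Ring k] {G V : Type} [Group G] [MulAction G V] {κ μ : Type} [Fintype κ]
  [DecidableEq κ] [Fintype μ] [DecidableEq μ]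

/-- the class of `x` is represented by a matrix located at vertices -/
def VC (U : Subgroup (MonoidAlgebra k G)ˣ) (V : Type) [MulAction G V]
    (x : (Matrix κ κ (MonoidAlgebra k G))ˣ) : Prop :=
  ∃ (μ : Type) (_ : Fintype μ) (_ : DecidableEq μ) (ω : μ → V)
    (y : (Matrix μ μ (MonoidAlgebra k G))ˣ), (∀ i, rep G (ω i) = ω i) ∧
    Ty ω ω Eq y.val ∧ Ty ω ω Eq (y⁻¹).val ∧ Cl U x y

variable {U : Subgroup (MonoidAlgebra k G)ˣ}

theorem VC.of_Cl {x : (Matrix κ κ (MonoidAlgebra k G))ˣ} {y : (Matrix μ μ (MonoidAlgebra k G))ˣ}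
    (h : Cl U x y) (hy : VC U V y) : VC U V x := by
  obtain ⟨μ, i1, i2, ω, z, h1, h2, h3, h4⟩ := hy
  exact ⟨μ, i1, i2, ω, z, h1, h2, h3, h.trans h4⟩

theorem VC.of_TT {x : (Matrix κ κ (MonoidAlgebra k G))ˣ} (h : TT U x) : VC U V x :=
  ⟨Empty, inferInstance, inferInstance, Empty.elim, 1, fun i => i.elim,
    fun i => i.elim, fun i => i.elim, Cl.of_TT h (TT_one _)⟩

theorem VC.mul {x y : (Matrix κ κ (MonoidAlgebra k G))ˣ} (hx : VC U V x) (hy : VC U V y) :
    VC U V (x * y) := by
  obtain ⟨μ, i1, i2, ω, z, h1, h2, h3, h4⟩ := hx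
  obtain ⟨μ', i1', i2', ω', z', h1', h2', h3', h4'⟩ := hy
  refine ⟨μ ⊕ μ', inferInstance, inferInstance, Sum.elim ω ω', blockSum z z', ?_, ?_, ?_,
    h4.mul h4'⟩
  · rintro (i | i)
    · exact h1 i
    · exact h1' i
  · exact Ty.sum h2 h2'
  · rw [blockSum_inv]
    exact Ty.sum h3 h3'

theorem VC.unst {x : (Matrix κ κ (MonoidAlgebra k G))ˣ} (h : VC U V (Units.map (stm μ) x)) :
    VC U V x := VC.of_Cl (Cl.st x).symm h

/-- the augmentation -/
noncomputable def aug (k : Type) [Ring k] (G : Type) [Group G] : MonoidAlgebra k G →+* k :=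
  MonoidAlgebra.liftNCRingHom (RingHom.id k) (1 : G →* k) (fun _ _ => Commute.one_right _)

/-- square matrices -/
theorem card_of_inv {R : Type} [Ring R] [InvariantBasisNumber R] {J K : Type} [Fintype J]
    [DecidableEq J] [Fintype K] [DecidableEq K] (A : Matrix J K R) (B : Matrix K J R)
    (h1 : A * B = 1) (h2 : B * A = 1) : Fintype.card J = Fintype.card K := by
  let f : (J → R) ≃ₗ[R] (K → R) :=
    { toFun := fun v => v ᵥ* A
      map_add' := fun v w => Matrix.add_vecMul _ _ _
      map_smul' := fun s v => Matrix.smul_vecMul _ _ _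
      invFun := fun v => v ᵥ* B
      left_inv := by
        intro v
        beta_reduce
        rw [Matrix.vecMul_vecMul, h1, Matrix.vecMul_one]
      right_inv := by
        intro v
        beta_reduce
        rw [Matrix.vecMul_vecMul, h2, Matrix.vecMul_one] }
  exact card_eq_of_linearEquiv R f

/-- the number of rows and columns over one orbit -/
theorem count {R : Type} [Ring R] [InvariantBasisNumber R] {J K : Type} [Fintype J]
    [DecidableEq J] [Fintype K] [DecidableEq K] {Ω : Type}
    [DecidableEq Ω] (A : Matrix J K R) (B : Matrix K J R) (h1 : A * B = 1) (h2 : B * A = 1)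
    (a : J → Ω) (b : K → Ω) (hA : ∀ j l, A j l ≠ 0 → a j = b l) (t : Ω) :
    Fintype.card {j // a j = t} = Fintype.card {l // b l = t} := by
  have e1 : ∀ (f : K → R), (∀ l, f l ≠ 0 → b l = t) → ∑ l : {l // b l = t}, f l.1 = ∑ l, f l := by
    intro f hf
    rw [← Finset.sum_subtype (Finset.univ.filter fun l => b l = t) (by simp) f]
    exact Finset.sum_filter_of_ne fun l _ hl => hf l hl
  have e2 : ∀ (f : J → R), (∀ l, f l ≠ 0 → a l = t) → ∑ l : {l // a l = t}, f l.1 = ∑ l, f l := by
    intro f hf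
    rw [← Finset.sum_subtype (Finset.univ.filter fun l => a l = t) (by simp) f]
    exact Finset.sum_filter_of_ne fun l _ hl => hf l hl
  apply card_of_inv (R := R) (A.submatrix Subtype.val Subtype.val)
    (B.submatrix Subtype.val Subtype.val)
  · ext1 j j'
    have h3 := congrFun (congrFun h1 j.1) j'.1
    rw [Matrix.mul_apply] at h3
    rw [Matrix.mul_apply]
    refine ((e1 (fun l => A j.1 l * B l j'.1) ?_).trans h3).trans ?_
    · intro l hl
      rw [← hA j.1 l (fun h => hl (by rw [h, zero_mul]))]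
      exact j.2
    · by_cases h : j = j'
      · subst h
        rw [Matrix.one_apply_eq, Matrix.one_apply_eq]
      · rw [Matrix.one_apply_ne h, Matrix.one_apply_ne (fun h' => h (Subtype.ext h'))]
  · ext1 l l'
    have h3 := congrFun (congrFun h2 l.1) l'.1
    rw [Matrix.mul_apply] at h3
    rw [Matrix.mul_apply]
    refine ((e2 (fun j => B l.1 j * A j l'.1) ?_).trans h3).trans ?_
    · intro j hj
      rw [hA j l'.1 (fun h => hj (by rw [h, mul_zero]))]
      exact l'.2
    · by_cases h : l = l'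
      · subst h
        rw [Matrix.one_apply_eq, Matrix.one_apply_eq]
      · rw [Matrix.one_apply_ne h, Matrix.one_apply_ne (fun h' => h (Subtype.ext h'))]

theorem card_eq [InvariantBasisNumber k] {J K : Type} [Fintype J] [DecidableEq J] [Fintype K]
    [DecidableEq K] (A : Matrix J K (MonoidAlgebra k G)) (B : Matrix K J (MonoidAlgebra k G))
    (h1 : A * B = 1) (h2 : B * A = 1) : Fintype.card J = Fintype.card K := by
  have g1 : A.map (aug k G) * B.map (aug k G) = 1 := by
    rw [← Matrix.map_mul, h1]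
    exact Matrix.map_one _ (map_zero _) (map_one _)
  have g2 : B.map (aug k G) * A.map (aug k G) = 1 := by
    rw [← Matrix.map_mul, h2]
    exact Matrix.map_one _ (map_zero _) (map_one _)
  exact card_of_inv _ _ g1 g2

variable [InvariantBasisNumber k] (hU : TG k G ≤ U)

include hU

/-- Invertible matrices which are located on vertices. -/
theorem VC.typed (x : (Matrix κ κ (MonoidAlgebra k G))ˣ) (ν ω : κ → V) (h1 : Ty ν ω Eq x.val)
    (h2 : Ty ω ν Eq (x⁻¹).val) : VC U V x := by
  classical
  have hc : ∀ j, ∃ g : G, g • rep G (ν j) = ν j := fun j => rep_exists _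
  choose c hc using hc
  have hd : ∀ j, ∃ g : G, g • rep G (ω j) = ω j := fun j => rep_exists _
  choose d hd using hd
  have hc' : (fun j => (c j)⁻¹ • ν j) = fun j => rep G (ν j) := by
    funext j
    rw [inv_smul_eq_iff, hc]
  have hd' : (fun j => (d j)⁻¹ • ω j) = fun j => rep G (ω j) := by
    funext j
    rw [inv_smul_eq_iff, hd]
  let x' := (dg k c)⁻¹ * x * dg k d
  have t1 : Ty (fun j => rep G (ν j)) (fun j => rep G (ω j)) Eq x'.val := by
    have h3 := (h1.dg_left (fun j => (c j)⁻¹)).dg_right GInv.eq d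
    rw [hc', hd'] at h3
    have : x'.val = (dg k (fun j => (c j)⁻¹)).val * x.val * (dg k d).val := by
      change (dg k c)⁻¹.val * x.val * (dg k d).val = _
      rw [dg_inv]
    rw [this]; exact h3
  have t2 : Ty (fun j => rep G (ω j)) (fun j => rep G (ν j)) Eq (x'⁻¹).val := by
    have h3 := (h2.dg_left (fun j => (d j)⁻¹)).dg_right GInv.eq c
    rw [hc', hd'] at h3
    have : (x'⁻¹).val = (dg k (fun j => (d j)⁻¹)).val * (x⁻¹).val * (dg k c).val := by
      have : x'⁻¹ = (dg k d)⁻¹ * x⁻¹ * dg k c := by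
        simp only [x', _root_.mul_inv_rev, inv_inv, mul_assoc]
      rw [this]
      change (dg k d)⁻¹.val * (x⁻¹).val * (dg k c).val = _
      rw [dg_inv]
    rw [this]; exact h3
  -- the permutation
  have hA : ∀ j l, (x'.val.map (aug k G)) j l ≠ 0 → rep G (ν j) = rep G (ω l) := by
    intro j l h
    rw [Matrix.map_apply] at h
    have h3 : ∃ g, (x'.val j l).coeff g ≠ 0 := by
      by_contra hcon
      push Not at hcon
      apply h
      have : x'.val j l = 0 := by
        apply MonoidAlgebra.coeff_injective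
        ext g
        exact hcon g
      rw [this, map_zero]
    obtain ⟨g, hg⟩ := h3
    have h4 := rep_of_smul (t1 j l g hg)
    rw [rep_rep, rep_rep] at h4
    exact h4
  have g1 : x'.val.map (aug k G) * (x'⁻¹).val.map (aug k G) = 1 := by
    rw [← Matrix.map_mul, Units.mul_inv]
    exact Matrix.map_one _ (map_zero _) (map_one _)
  have g2 : (x'⁻¹).val.map (aug k G) * x'.val.map (aug k G) = 1 := by
    rw [← Matrix.map_mul, Units.inv_mul]
    exact Matrix.map_one _ (map_zero _) (map_one _)
  have hcount := count _ _ g1 g2 (fun j => rep G (ν j)) (fun j => rep G (ω j)) hA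
  let σ : κ ≃ κ := Equiv.ofFiberEquiv (f := fun j => rep G (ν j)) (g := fun j => rep G (ω j))
    (fun t => Fintype.equivOfCardEq (hcount t))
  have hσ : ∀ j, rep G (ω (σ j)) = rep G (ν j) := fun j =>
    Equiv.ofFiberEquiv_map (f := fun j => rep G (ν j)) (g := fun j => rep G (ω j))
      (fun t => Fintype.equivOfCardEq (hcount t)) j
  let y := x' * (pu σ.symm : (Matrix κ κ (MonoidAlgebra k G))ˣ)
  have hy : ∀ i j, y.val i j = x'.val i (σ j) := by
    intro i j
    change (x'.val * (pu σ.symm : (Matrix κ κ (MonoidAlgebra k G))ˣ).val) i j = _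
    rw [pu_mul_apply]
    simp
  have hyi : ∀ i j, (y⁻¹).val i j = (x'⁻¹).val (σ i) j := by
    intro i j
    have : y⁻¹ = (pu σ.symm : (Matrix κ κ (MonoidAlgebra k G))ˣ)⁻¹ * x'⁻¹ := _root_.mul_inv_rev _ _
    rw [this]
    change (((1 : Matrix κ κ (MonoidAlgebra k G)).submatrix id σ.symm) * (x'⁻¹).val) i j = _
    rw [Matrix.mul_apply, Finset.sum_eq_single (σ i)]
    · rw [Matrix.submatrix_apply, Equiv.symm_apply_apply, id, Matrix.one_apply_eq, one_mul]
    · intro b _ hb
      rw [Matrix.submatrix_apply, id, Matrix.one_apply_ne, zero_mul]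
      intro h
      apply hb
      rw [h, Equiv.apply_symm_apply]
    · intro h
      exact absurd (Finset.mem_univ _) h
  refine ⟨κ, inferInstance, inferInstance, fun j => rep G (ν j), y, fun i => rep_rep _, ?_, ?_, ?_⟩
  · intro i j g hg
    rw [hy] at hg
    have := t1 i (σ j) g hg
    rw [this]
    exact hσ j
  · intro i j g hg
    rw [hyi] at hg
    have := t2 (σ i) j g hg
    beta_reduce at this ⊢
    rw [hσ] at this
    exact this
  · have h3 : x = dg k c * y * ((pu σ.symm)⁻¹ * (dg k d)⁻¹) := by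
      simp only [y, x']
      group
    rw [h3]
    exact Cl.left_mul (tt_dg hU c) (TT_mul _ _ _ (TT_inv _ _ (tt_perm hU _)) (TT_inv _ _ (tt_dg hU d)))

end vc

end Pool.Agent.H1.MK
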