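import Pool.Agent.H1.MV.Orient
import Pool.Agent.H1.MV.Ends
import Pool.Agent.H1.MK.Core

set_option autoImplicit false
set_option linter.unusedSectionVars false
set_option linter.unusedSimpArgs false

/-!
# Linearisation over a tree, for arbitrary coefficient rings
-/

namespace Pool.Agent.H1.MK

open Matrix TH57.Thr Pool.Agent.K4H37.MT Pool.Agent.H1.MV

section lin

variable {k : Type} [Ring k] {G V : Type} [Group G] [MulAction G V] [DecidableEq V]
  {T : SimpleGraph V}

theorem coeff_single_ne {g h : G} {z : k}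
    (hg : (MonoidAlgebra.single h z : MonoidAlgebra k G).coeff g ≠ 0) : g = h := by
  by_contra hne
  rw [MonoidAlgebra.coeff_single] at hg
  exact hg (Finsupp.single_eq_of_ne hne)

theorem coeff_ite_ne {g h : G} {z : k} {p : Prop} [Decidable p]
    (hg : (if p then (MonoidAlgebra.single h z : MonoidAlgebra k G) else 0).coeff g ≠ 0) :
    p ∧ g = h := by
  by_cases hp : p
  · rw [if_pos hp] at hg
    exact ⟨hp, coeff_single_ne hg⟩
  · rw [if_neg hp] at hg
    simp at hg

theorem coeff_add_ne {x y : MonoidAlgebra k G} {g : G} (h : (x + y).coeff g ≠ 0) :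
    x.coeff g ≠ 0 ∨ y.coeff g ≠ 0 := by
  by_contra hcon
  push Not at hcon
  apply h
  rw [MonoidAlgebra.coeff_add, Finsupp.add_apply, hcon.1, hcon.2, add_zero]

/-- a matrix located at the ends of the edges is a sum of two parts -/
theorem two_parts {J I : Type} (ν : I → V) (ε : J → V × V) (hadj : ∀ j, T.Adj (ε j).1 (ε j).2)
    (M : Matrix I J (MonoidAlgebra k G)) (h : Ty ν ε (fun x f => x = f.1 ∨ x = f.2) M) :
    M = res ν ε (fun x f => x = f.1) M + res ν ε (fun x f => x = f.2) M := by
  classical
  ext1 i j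
  apply MonoidAlgebra.coeff_injective
  ext g
  rw [Matrix.add_apply, MonoidAlgebra.coeff_add, Finsupp.add_apply, res_coeff, res_coeff]
  have hne := (hadj j).ne
  by_cases h1 : g⁻¹ • ν i = (ε j).1
  · have h2 : ¬ g⁻¹ • ν i = (ε j).2 := fun h => hne (h1.symm.trans h)
    rw [if_pos h1, if_neg h2, add_zero]
  · by_cases h2 : g⁻¹ • ν i = (ε j).2
    · rw [if_neg h1, if_pos h2, zero_add]
    · rw [if_neg h1, if_neg h2, add_zero]
      by_contra h3
      rcases h i j g h3 with h4 | h4
      · exact h1 h4
      · exact h2 h4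

variable {κ A : Type} [Fintype κ] [DecidableEq κ] [Fintype A] [DecidableEq A]

/-- the matrix of the subdivided system -/
noncomputable def Sub (C : A → Matrix κ κ k) (d : A → G) (r : A → ℕ) (h : A → ℕ → G) :
    Matrix (κ ⊕ (Σ p : κ × A, Fin (r p.2))) (κ ⊕ (Σ p : κ × A, Fin (r p.2)))
      (MonoidAlgebra k G) :=
  fromBlocks
    (Matrix.of fun i j => ∑ a, if r a = 0 then MonoidAlgebra.single (d a) (C a i j) else 0)
    (Matrix.of fun i q => if q.2.1 = 0 then
      MonoidAlgebra.single (h q.1.2 0) (C q.1.2 i q.1.1) else 0)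
    (Matrix.of fun p j => if p.2.1 + 1 = r p.1.2 ∧ p.1.1 = j then
      MonoidAlgebra.single (d p.1.2) 1 else 0)
    (Matrix.of fun p q => (if p = q then MonoidAlgebra.single (h p.1.2 p.2.1) (-1) else 0)
      + (if p.1 = q.1 ∧ q.2.1 = p.2.1 + 1 then
        MonoidAlgebra.single (h p.1.2 (p.2.1 + 1)) 1 else 0))

variable {U : Subgroup (MonoidAlgebra k G)ˣ}

theorem sub_red (hU : TG k G ≤ U) (C : A → Matrix κ κ k) (d : A → G) (r : A → ℕ)
    (h : A → ℕ → G) :
    Red U (Sub C d r h) (Matrix.of fun i j => ∑ a, MonoidAlgebra.single (d a) (C a i j)) := by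
  classical
  constructor
  · -- the triangular block
    have e1 : (Sub C d r h).toBlocks₂₂ = Matrix.of fun p q : (Σ p : κ × A, Fin (r p.2)) =>
        (if p = q then MonoidAlgebra.single (h p.1.2 p.2.1) (-1) else 0)
      + (if p.1 = q.1 ∧ q.2.1 = p.2.1 + 1 then MonoidAlgebra.single (h p.1.2 (p.2.1 + 1)) 1
        else 0) := by
      unfold Sub
      rw [toBlocks_fromBlocks₂₂]
    rw [e1]
    apply triv_tri _ (fun p => r p.1.2 - p.2.1)
    · intro p q hpq hne
      rw [Matrix.of_apply, if_neg hpq, zero_add] at hne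
      by_cases hc : p.1 = q.1 ∧ q.2.1 = p.2.1 + 1
      · obtain ⟨h1, h2⟩ := hc
        have h3 := q.2.2
        have h4 : r p.1.2 = r q.1.2 := by rw [h1]
        omega
      · rw [if_neg hc] at hne
        exact absurd rfl hne
    · intro p
      refine ⟨tg k (h p.1.2 p.2.1) (-1), hU (tg_mem _ _), ?_⟩
      rw [Matrix.of_apply, if_pos rfl, if_neg (by omega), add_zero]
      change _ = MonoidAlgebra.single (h p.1.2 p.2.1) ((((-1 : ℤˣ) : ℤ)) : k)
      simp
  · refine ⟨Matrix.of fun p j => if p.1.1 = j then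
      MonoidAlgebra.single ((h p.1.2 p.2.1)⁻¹ * d p.1.2) 1 else 0, ?_, ?_⟩
    · ext1 i j
      rw [Matrix.add_apply, Matrix.mul_apply, Matrix.of_apply]
      unfold Sub
      rw [toBlocks_fromBlocks₁₁, toBlocks_fromBlocks₁₂, Matrix.of_apply]
      have h1 : ∑ p : (Σ p : κ × A, Fin (r p.2)),
          (Matrix.of fun (i : κ) (q : (Σ p : κ × A, Fin (r p.2))) => if q.2.1 = 0 then
            (MonoidAlgebra.single (h q.1.2 0) (C q.1.2 i q.1.1) : MonoidAlgebra k G) else 0) i p *
          (Matrix.of fun (p : (Σ p : κ × A, Fin (r p.2))) (j : κ) => if p.1.1 = j then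
            (MonoidAlgebra.single ((h p.1.2 p.2.1)⁻¹ * d p.1.2) 1 : MonoidAlgebra k G) else 0) p j
          = ∑ a, if r a ≠ 0 then MonoidAlgebra.single (d a) (C a i j) else 0 := by
        rw [Fintype.sum_sigma, Fintype.sum_prod_type, Finset.sum_eq_single j]
        · apply Finset.sum_congr rfl
          intro a _
          by_cases hr : r a = 0
          · rw [if_neg (by tauto)]
            apply Finset.sum_eq_zero
            intro q _
            have := q.2
            simp only at this
            omega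
          · rw [if_pos hr, Finset.sum_eq_single (⟨0, Nat.pos_of_ne_zero hr⟩ : Fin (r a))]
            · rw [Matrix.of_apply, Matrix.of_apply, if_pos rfl, if_pos rfl,
                MonoidAlgebra.single_mul_single, mul_inv_cancel_left, mul_one]
            · intro q _ hq
              rw [Matrix.of_apply, if_neg, zero_mul]
              intro h3
              exact hq (Fin.ext h3)
            · intro h
              exact absurd (Finset.mem_univ _) h
        · intro i' _ hi'
          apply Finset.sum_eq_zero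
          intro a _
          apply Finset.sum_eq_zero
          intro q _
          rw [Matrix.of_apply, Matrix.of_apply, if_neg hi', mul_zero]
        · intro h
          exact absurd (Finset.mem_univ _) h
      rw [h1, ← Finset.sum_add_distrib]
      apply Finset.sum_congr rfl
      intro a _
      by_cases hr : r a = 0 <;> simp [hr]
    · ext1 p j
      rw [Matrix.add_apply, Matrix.mul_apply, Matrix.zero_apply]
      unfold Sub
      rw [toBlocks_fromBlocks₂₁, toBlocks_fromBlocks₂₂, Matrix.of_apply]
      have h1 : ∑ q : (Σ p : κ × A, Fin (r p.2)),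
          (Matrix.of fun (p q : (Σ p : κ × A, Fin (r p.2))) =>
          (if p = q then (MonoidAlgebra.single (h p.1.2 p.2.1) (-1) : MonoidAlgebra k G) else 0)
      + (if p.1 = q.1 ∧ q.2.1 = p.2.1 + 1 then MonoidAlgebra.single (h p.1.2 (p.2.1 + 1)) 1
        else 0)) p q * (Matrix.of fun (p : (Σ p : κ × A, Fin (r p.2))) (j : κ) => if p.1.1 = j then
      (MonoidAlgebra.single ((h p.1.2 p.2.1)⁻¹ * d p.1.2) 1 : MonoidAlgebra k G) else 0) q j
          = (if p.1.1 = j then MonoidAlgebra.single (d p.1.2) (-1) else 0)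
            + (if p.2.1 + 1 ≠ r p.1.2 ∧ p.1.1 = j then
              MonoidAlgebra.single (d p.1.2) 1 else 0) := by
        simp only [Matrix.of_apply, add_mul, Finset.sum_add_distrib]
        congr 1
        · rw [Finset.sum_eq_single p]
          · rw [if_pos rfl]
            by_cases hα : p.1.1 = j
            · rw [if_pos hα, if_pos hα, MonoidAlgebra.single_mul_single, mul_inv_cancel_left,
                mul_one]
            · rw [if_neg hα, if_neg hα, mul_zero]
          · intro q _ hq
            rw [if_neg (Ne.symm hq), zero_mul]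
          · intro h
            exact absurd (Finset.mem_univ _) h
        · rw [Fintype.sum_sigma, Finset.sum_eq_single p.1]
          · by_cases hr : p.2.1 + 1 = r p.1.2
            · rw [if_neg (by tauto)]
              apply Finset.sum_eq_zero
              intro q _
              rw [if_neg, zero_mul]
              rintro ⟨_, h3⟩
              have := q.2
              simp only at h3
              omega
            · have hlt : p.2.1 + 1 < r p.1.2 := by
                have := p.2.2
                omega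
              rw [Finset.sum_eq_single (⟨p.2.1 + 1, hlt⟩ : Fin (r p.1.2))]
              · rw [if_pos ⟨rfl, rfl⟩]
                by_cases hα : p.1.1 = j
                · rw [if_pos hα, if_pos ⟨hr, hα⟩, MonoidAlgebra.single_mul_single,
                    mul_inv_cancel_left, one_mul]
                · rw [if_neg hα, if_neg (fun h => hα h.2), mul_zero]
              · intro q _ hq
                rw [if_neg, zero_mul]
                rintro ⟨_, h3⟩
                exact hq (Fin.ext h3)
              · intro h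
                exact absurd (Finset.mem_univ _) h
          · intro i' _ hi'
            apply Finset.sum_eq_zero
            intro q _
            rw [if_neg (fun h => hi' h.1.symm), zero_mul]
          · intro h
            exact absurd (Finset.mem_univ _) h
      rw [h1]
      by_cases hr : p.2.1 + 1 = r p.1.2 <;> by_cases hα : p.1.1 = j
      · rw [if_pos ⟨hr, hα⟩, if_pos hα, if_neg (by tauto), add_zero, MonoidAlgebra.single_neg,
          add_neg_cancel]
      · rw [if_neg (by tauto), if_neg hα, if_neg (by tauto)]; simp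
      · rw [if_neg (by tauto), if_pos hα, if_pos ⟨hr, hα⟩, zero_add, MonoidAlgebra.single_neg,
          neg_add_cancel]
      · rw [if_neg (by tauto), if_neg hα, if_neg (by tauto)]; simp

variable [InvariantBasisNumber k]

/-- every class comes from the vertex groups -/
theorem vc_nil (hU : TG k G ≤ U) (hT : T.IsTree)
    (hact : ∀ (g : G) (v w : V), T.Adj v w → T.Adj (g • v) (g • w))
    (hinv : ∀ (g : G) (v w : V), T.Adj v w → ¬ (g • v = w ∧ g • w = v)) 
    (hNil : ∀ (J : Type) [Fintype J] [DecidableEq J] (σ : J → V × V)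
      (x y : Matrix J J (MonoidAlgebra k G)), Ty σ σ (fun q p => nb T p q) x →
      y * (1 + x) = 1 → Triv U (1 + x))
    (hS : ∀ v w : V, T.Adj v w → AllStablyFree (MonoidAlgebra k
      (MulAction.stabilizer G ((v, w) : V × V))))
    (X : (Matrix κ κ (MonoidAlgebra k G))ˣ) : VC U V X := by
  classical
  by_cases hsub : Subsingleton V
  · obtain ⟨v₀⟩ := hT.connected.nonempty
    apply VC.typed hU X (fun _ => v₀) (fun _ => v₀)
    · intro i j g _
      exact Subsingleton.elim _ _
    · intro i j g _
      exact Subsingleton.elim _ _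
  have hedge : ∃ v w, T.Adj v w := by
    by_contra hcon
    push Not at hcon
    apply hsub
    refine ⟨fun v w => ?_⟩
    by_contra hne
    obtain ⟨c, hc, _⟩ := toward_exists hT (w := v) (b := w) hne
    exact hcon _ _ hc
  obtain ⟨v₁, w₁, hvw⟩ := hedge
  obtain ⟨_, f₀, hf₀, _⟩ := isE_exists hact hinv hvw
  set u₀ := f₀.1 with hu₀
  -- the coefficients
  let A : Type := {g : G // g ∈ suppF X.val}
  let C : A → Matrix κ κ k := fun a => Matrix.of fun i j => (X.val i j).coeff a.1
  let d : A → G := fun a => a.1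
  have hX : X.val = Matrix.of fun i j => ∑ a, MonoidAlgebra.single (d a) (C a i j) := by
    ext1 i j
    rw [← sum_suppF X.val i j, Matrix.of_apply]
    exact (Finset.sum_coe_sort (suppF X.val)
      (fun g => MonoidAlgebra.single g ((X.val i j).coeff g))).symm
  -- the paths
  have hw : ∀ i, ∃ p : T.Walk u₀ (d i • u₀), True := fun i =>
    ⟨(hT.connected u₀ (d i • u₀)).some, trivial⟩
  choose p _ using hw
  let r : A → ℕ := fun i => (p i).length
  let w : A → ℕ → V := fun i k => (p i).getVert k
  have hadjw : ∀ i k, k < r i → T.Adj (w i k) (w i (k + 1)) := fun i k hk =>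
    (p i).adj_getVert_succ hk
  have hedge : ∀ i k, ∃ (h : G) (f : V × V), k < r i → (IsE G T f ∧
      (h • f = (w i k, w i (k + 1)) ∨ h • f = (w i (k + 1), w i k))) := by
    intro i k
    by_cases hk : k < r i
    · obtain ⟨h, f, h1, h2⟩ := isE_exists hact hinv (hadjw i k hk)
      exact ⟨h, f, fun _ => ⟨h1, h2⟩⟩
    · exact ⟨1, f₀, fun h => absurd h hk⟩
  choose h f hf using hedge
  obtain ⟨M, hM, hMT⟩ := Red.same (a := X) (M := Sub C d r h) (by
    have h9 := sub_red hU C d r h
    rw [← hX] at h9
    exact h9)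
  -- the locations
  let ν : κ ⊕ (Σ p : κ × A, Fin (r p.2)) → V := Sum.elim (fun _ => u₀)
    (fun p => w p.1.2 (p.2.1 + 1))
  let ε : κ ⊕ (Σ p : κ × A, Fin (r p.2)) → V × V := Sum.elim (fun _ => f₀)
    (fun p => f p.1.2 p.2.1)
  have hE : ∀ j, IsE G T (ε j) := by
    rintro (j | p)
    · exact hf₀
    · exact (hf p.1.2 p.2.1 p.2.2).1
  have hty : Ty ν ε (fun x f => x = f.1 ∨ x = f.2) M.val := by
    rw [hM]
    rintro (i | p₁) (j | q) g hg
    · unfold Sub at hg
      rw [fromBlocks_apply₁₁, Matrix.of_apply, MonoidAlgebra.coeff_sum,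
        Finsupp.finsetSum_apply] at hg
      left
      change g⁻¹ • u₀ = u₀
      obtain ⟨a, _, ha⟩ := Finset.exists_ne_zero_of_sum_ne_zero hg
      obtain ⟨h1, h2⟩ := coeff_ite_ne ha
      rw [h2, inv_smul_eq_iff]
      exact (p a).eq_of_length_eq_zero h1
    · unfold Sub at hg
      rw [fromBlocks_apply₁₂, Matrix.of_apply] at hg
      obtain ⟨h2, h3⟩ := coeff_ite_ne hg
      have h0 : 0 < r q.1.2 := by
        have := q.2.2
        omega
      have hw0 : w q.1.2 0 = u₀ := (p q.1.2).getVert_zero
      change g⁻¹ • u₀ = (f q.1.2 q.2.1).1 ∨ g⁻¹ • u₀ = (f q.1.2 q.2.1).2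
      rw [h2, h3, inv_smul_eq_iff, inv_smul_eq_iff, ← hw0]
      rcases (hf q.1.2 0 h0).2 with h4 | h4
      · left; exact (congrArg Prod.fst h4).symm
      · right; exact (congrArg Prod.snd h4).symm
    · unfold Sub at hg
      rw [fromBlocks_apply₂₁, Matrix.of_apply] at hg
      obtain ⟨⟨h1, h2⟩, h3⟩ := coeff_ite_ne hg
      left
      change g⁻¹ • w p₁.1.2 (p₁.2.1 + 1) = u₀
      rw [h3, inv_smul_eq_iff, h1]
      exact (p p₁.1.2).getVert_length
    · unfold Sub at hg
      rw [fromBlocks_apply₂₂, Matrix.of_apply] at hg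
      change g⁻¹ • w p₁.1.2 (p₁.2.1 + 1) = (f q.1.2 q.2.1).1 ∨
        g⁻¹ • w p₁.1.2 (p₁.2.1 + 1) = (f q.1.2 q.2.1).2
      rcases coeff_add_ne hg with hg | hg
      · obtain ⟨h1, h2⟩ := coeff_ite_ne hg
        rw [← h1, h2, inv_smul_eq_iff, inv_smul_eq_iff]
        rcases (hf p₁.1.2 p₁.2.1 p₁.2.2).2 with h4 | h4
        · right; exact (congrArg Prod.snd h4).symm
        · left; exact (congrArg Prod.fst h4).symm
      · obtain ⟨⟨h1, h1'⟩, h2⟩ := coeff_ite_ne hg
        have hlt : p₁.2.1 + 1 < r p₁.1.2 := by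
          have h3 := q.2.2
          have h4 : r p₁.1.2 = r q.1.2 := by rw [h1]
          omega
        rw [h1', ← h1, h2, inv_smul_eq_iff, inv_smul_eq_iff]
        rcases (hf p₁.1.2 (p₁.2.1 + 1) hlt).2 with h4 | h4
        · left; exact (congrArg Prod.fst h4).symm
        · right; exact (congrArg Prod.snd h4).symm
  have hVM : VC U V M := by
    refine core hU hT hact hNil ν ε (fun j => (hE j).1)
      (fun g j j' hg => isE_good (hE j) (hE j') hg)
      (fun g j j' => isE_no (hE j) (hE j') g) M _ _
      (two_parts ν ε (fun j => (hE j).1) M.val hty) Ty.res Ty.res ?_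
    intro j
    exact hS (ε j).1 (ε j).2 (hE j).1
  have hMF : Cl U M (Units.map (stm (Σ p : κ × A, Fin (r p.2))) X) := by
    have h1 := Cl.left_mul (y := Units.map (stm (Σ p : κ × A, Fin (r p.2))) X) hMT (TT_one U)
    rwa [mul_one, inv_mul_cancel_right] at h1
  exact VC.unst (μ := (Σ p : κ × A, Fin (r p.2))) (VC.of_Cl hMF.symm hVM)

/-- every class comes from the vertex groups: stabilisers of rays in a class -/
theorem vc_all (hU : TG k G ≤ U) (hT : T.IsTree)
    (hact : ∀ (g : G) (v w : V), T.Adj v w → T.Adj (g • v) (g • w))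
    (hinv : ∀ (g : G) (v w : V), T.Adj v w → ¬ (g • v = w ∧ g • w = v)) 
    {𝒩 : Subgroup G → Prop} (hC : Cls 𝒩) (hN : ∀ H, 𝒩 H → Nice (MonoidAlgebra k H))
    (hm : ∀ p : ℕ → V, (∀ i, T.Adj (p i) (p (i + 1))) → (∀ i, p (i + 2) ≠ p i) →
      ∃ n, 𝒩 (Fx G n p))
    (hS : ∀ v w : V, T.Adj v w → AllStablyFree (MonoidAlgebra k
      (MulAction.stabilizer G ((v, w) : V × V))))
    (X : (Matrix κ κ (MonoidAlgebra k G))ˣ) : VC U V X :=
  vc_nil hU hT hact hinv (fun _ _ _ _ _ _ hx h => triv_of_rayN U hT hact hC hN hm hx h) hS X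

/-- every class comes from the vertex groups: stabilisers of rays in a class or finally constant -/
theorem vc_ends (hU : TG k G ≤ U) (hT : T.IsTree)
    (hact : ∀ (g : G) (v w : V), T.Adj v w → T.Adj (g • v) (g • w))
    (hinv : ∀ (g : G) (v w : V), T.Adj v w → ¬ (g • v = w ∧ g • w = v)) 
    {𝒩 : Subgroup G → Prop} (hC : Cls 𝒩) (hN : ∀ H, 𝒩 H → Nice (MonoidAlgebra k H))
    (hm : ∀ p : ℕ → V, (∀ i, T.Adj (p i) (p (i + 1))) → (∀ i, p (i + 2) ≠ p i) →
      (∃ n, 𝒩 (Fx G n p)) ∨ ((∃ n, ∀ m, n ≤ m → Fx G m p = Fx G n p) ∧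
        ((∃ (h : G) (l : ℕ), 0 < l ∧ ∀ i, h • p (i + l) = p i) →
        ∀ S : Subgroup G, S ≤ endStab G p → (∀ g : G, (∀ v : V, g • v = v) → g ∈ S) →
          HT k U S)))
    (hS : ∀ v w : V, T.Adj v w → AllStablyFree (MonoidAlgebra k
      (MulAction.stabilizer G ((v, w) : V × V))))
    (X : (Matrix κ κ (MonoidAlgebra k G))ˣ) : VC U V X :=
  vc_nil hU hT hact hinv (fun _ _ _ _ _ _ hx h => triv_of_ends U hT hact hC hN hm hx h) hS X

end lin

end Pool.Agent.H1.MK
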