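import Pool.Agent.H1.MK.Sw
import Pool.Agent.H1.MV.Her

set_option autoImplicit false
set_option linter.unusedSectionVars false
set_option linter.unusedSimpArgs false
set_option linter.style.haveILetI false

/-!
# The projective class group of a group acting on a tree
-/

namespace Pool.Agent.H1.MK

open Matrix TH57.Thr Pool.Agent.K4H37.MT Pool.Agent.H1.MV

section tree

variable {k : Type} [Ring k] {G V : Type} [Group G] [MulAction G V] {T : SimpleGraph V}

/-- the matrices over the Laurent polynomials -/
noncomputable def swm {κ : Type} [Fintype κ] [DecidableEq κ]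
    (x : (Matrix κ κ (MonoidAlgebra (Lau k) G))ˣ) : (Matrix κ κ (Lau (MonoidAlgebra k G)))ˣ :=
  Units.map (mpm (sw k G).toRingHom) x

theorem swm_apply {κ : Type} [Fintype κ] [DecidableEq κ]
    (x : (Matrix κ κ (MonoidAlgebra (Lau k) G))ˣ) (i j : κ) :
    (swm x).val i j = sw k G (x.val i j) := rfl

theorem swm_inv {κ : Type} [Fintype κ] [DecidableEq κ]
    (x : (Matrix κ κ (MonoidAlgebra (Lau k) G))ˣ) : swm x⁻¹ = (swm x)⁻¹ := by
  unfold swm
  rw [map_inv]

theorem swm_sum {κ μ : Type} [Fintype κ] [DecidableEq κ] [Fintype μ] [DecidableEq μ]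
    (a : (Matrix κ κ (MonoidAlgebra (Lau k) G))ˣ) (d : (Matrix μ μ (MonoidAlgebra (Lau k) G))ˣ) :
    swm (blockSum a d) = blockSum (swm a) (swm d) := by
  apply Units.ext
  ext1 (i | i) (j | j)
  · rfl
  · exact map_zero (sw k G)
  · exact map_zero (sw k G)
  · rfl

theorem swm_re {κ μ : Type} [Fintype κ] [DecidableEq κ] [Fintype μ] [DecidableEq μ] (e : μ ≃ κ)
    (x : (Matrix κ κ (MonoidAlgebra (Lau k) G))ˣ) :
    swm (Units.map (TH57.Thr.re e) x) = Units.map (TH57.Thr.re e) (swm x) := rfl

theorem swm_inc (H : Subgroup G) {κ : Type} [Fintype κ] [DecidableEq κ]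
    (a : (Matrix κ κ (MonoidAlgebra (Lau k) H))ˣ) :
    (swm (Units.map (mpm (inc (Lau k) H)) a)).val = (swm a).val.map (LF (inc k H)) := by
  ext1 i j
  rw [swm_apply, Matrix.map_apply, swm_apply]
  exact sw_inc _ _

theorem swm_pencil {n : ℕ} {p : Matrix (Fin n) (Fin n) (MonoidAlgebra k G)} (hp : p * p = p) :
    ∃ x : (Matrix (Fin n) (Fin n) (MonoidAlgebra (Lau k) G))ˣ, swm x = Pu hp := by
  refine ⟨Units.map (mpm (sw k G).symm.toRingHom) (Pu hp), ?_⟩
  apply Units.ext
  ext1 i j
  rw [swm_apply]
  exact (sw k G).apply_symm_apply _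

theorem swm_TT {κ : Type} [Fintype κ] [DecidableEq κ]
    {x : (Matrix κ κ (MonoidAlgebra (Lau k) G))ˣ} (h : TT (TG (Lau k) G) x) :
    TT (VU (MonoidAlgebra k G)) (swm x) :=
  TT_map (TG (Lau k) G) (VU (MonoidAlgebra k G)) (sw k G).toRingHom sw_TG x h

/-- the boundary of the matrix is trivial -/
def BP (κ : Type) [Fintype κ] [DecidableEq κ] (x : (Matrix κ κ (MonoidAlgebra (Lau k) G))ˣ) :
    Prop := Bd (swm x) (1 : KZ (MonoidAlgebra k G))

theorem bp_block [DecidableEq V]
    (hV : ∀ v : V, AllStablyFree (MonoidAlgebra k (MulAction.stabilizer G v))) (μ : Type)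
    [Fintype μ] [DecidableEq μ] (ω : μ → V) (y : (Matrix μ μ (MonoidAlgebra (Lau k) G))ˣ)
    (hr : ∀ i, rep G (ω i) = ω i) (h1 : Ty ω ω Eq y.val) (h2 : Ty ω ω Eq (y⁻¹).val) :
    BP μ y := by
  refine block_ind (V := V) (PP := fun κ _ _ x => BP κ x) ?_ ?_ ?_ ?_ _ μ rfl ω y hr h1 h2
  · intro κ _ _ _
    exact bd_empty _
  · intro κ μ _ _ _ _ a d ha hd
    unfold BP at ha hd ⊢
    rw [swm_sum]
    have h4 := Bd.bsum ha hd
    rwa [one_mul] at h4
  · intro κ μ _ _ _ _ e x hx
    unfold BP at hx ⊢
    rw [swm_re]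
    exact Bd.re e hx
  · intro v κ _ _ a
    exact bd_map' (inc k (MulAction.stabilizer G v)) (hV v) (swm a) _ (swm_inc _ a)

/-- projective modules from the classes of pencils -/
theorem stablyFree_of_vc [DecidableEq V]
    (hV : ∀ v : V, AllStablyFree (MonoidAlgebra k (MulAction.stabilizer G v)))
    (h : ∀ (n : ℕ) (X : (Matrix (Fin n) (Fin n) (MonoidAlgebra (Lau k) G))ˣ),
      VC (TG (Lau k) G) V X) : AllStablyFree (MonoidAlgebra k G) := by
  apply allStablyFree_of_mo
  intro n p hp
  obtain ⟨x, hx⟩ := swm_pencil hp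
  obtain ⟨μ, _, _, ω, y, hr, h1, h2, h3⟩ := h n x
  have hy : Bd (swm y) (1 : KZ (MonoidAlgebra k G)) := bp_block hV μ ω y hr h1 h2
  have h5 := swm_TT h3
  rw [swm_sum, swm_inv, hx] at h5
  have h6 := bd_of_TT h5 (bd_inv hy)
  have h7 := bd_eq h6
  rw [bd_Pu] at h7
  have hfin := mo_finite (1 - p)
  have hproj := mo_projective (one_sub_idem hp)
  rw [kz_one_iff] at h7
  have h8 := stablyFree_compl _ (one_sub_idem hp) h7
  rwa [sub_sub_cancel] at h8

/-- **Projective modules over the group ring of a group acting on a tree.** -/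
theorem stablyFree_tree [InvariantBasisNumber (Lau k)] (hT : T.IsTree)
    (hact : ∀ (g : G) (v w : V), T.Adj v w → T.Adj (g • v) (g • w))
    (hinv : ∀ (g : G) (v w : V), T.Adj v w → ¬ (g • v = w ∧ g • w = v))
    (hV : ∀ v : V, AllStablyFree (MonoidAlgebra k (MulAction.stabilizer G v)))
    (hE : ∀ v w : V, T.Adj v w → AllStablyFree (MonoidAlgebra (Lau k)
      (MulAction.stabilizer G ((v, w) : V × V))))
    (hm : ∀ p : ℕ → V, (∀ i, T.Adj (p i) (p (i + 1))) → (∀ i, p (i + 2) ≠ p i) →
      ∃ n, Nice (MonoidAlgebra (Lau k) (Fx G n p))) : AllStablyFree (MonoidAlgebra k G) := by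
  classical
  apply stablyFree_of_vc hV
  intro n X
  exact vc_all le_rfl hT hact hinv nice_cls (fun _ h => h) hm hE X

end tree

section cls

/-- noetherian regular rings with stably free projective modules -/
structure RegC (k : Type) [Ring k] : Prop where
  noeth : IsNoetherianRing k
  nice : Nice k
  sf : AllStablyFree k

theorem RegC.lau {k : Type} [Ring k] (h : RegC k) : RegC (Lau k) := by
  have := h.noeth
  exact ⟨noeth_lau, nice_lau h.nice, allStablyFree_lau h.nice h.sf⟩

/-- the class of groups -/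
def KG (G : Type) [Group G] : Prop :=
  ∀ (k : Type) [Ring k], RegC k → ∀ H : Subgroup G, AllStablyFree (MonoidAlgebra k H)

/-- isomorphic groups -/
theorem sf_congr {k : Type} [Ring k] {G H : Type} [Group G] [Group H] (e : G ≃* H)
    (h : AllStablyFree (MonoidAlgebra k G)) : AllStablyFree (MonoidAlgebra k H) :=
  AllStablyFree.ringEquiv (MonoidAlgebra.mapDomainRingEquiv k e) h

theorem nice_congr {k : Type} [Ring k] {G H : Type} [Group G] [Group H] (e : G ≃* H)
    (h : Nice (MonoidAlgebra k G)) : Nice (MonoidAlgebra k H) :=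
  Nice.ringEquiv (MonoidAlgebra.mapDomainRingEquiv k e) h

variable {G : Type} [Group G]

theorem KG.inj (h : KG G) {K : Type} [Group K] (f : K →* G) (hf : Function.Injective f)
    (k : Type) [Ring k] (hk : RegC k) : AllStablyFree (MonoidAlgebra k K) :=
  sf_congr (MonoidHom.ofInjective hf).symm (h k hk f.range)

theorem KG.of_inj (h : KG G) {K : Type} [Group K] (f : K →* G) (hf : Function.Injective f) :
    KG K := by
  intro k _ hk H
  exact h.inj (f.comp H.subtype) (hf.comp H.subtype_injective) k hk

/-- trivial coefficient rings -/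
theorem sf_trivial {R : Type} [Ring R] [Subsingleton R] : AllStablyFree R := by
  intro P _ _ _ _
  have : Subsingleton P := Module.subsingleton R P
  exact ⟨0, 0, ⟨{ toFun := fun _ => 0
                  map_add' := fun _ _ => by simp
                  map_smul' := fun _ _ => by simp
                  invFun := fun _ => 0
                  left_inv := fun x => Subsingleton.elim _ _
                  right_inv := fun x => Subsingleton.elim _ _ }⟩⟩

/-- directed unions -/
theorem KG.union (h : ∀ F : Finset G, ∃ H : Subgroup G, (∀ x ∈ F, x ∈ H) ∧ KG H) : KG G := by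
  classical
  intro k _ hk L
  apply allStablyFree_of_mo
  intro n p hp
  obtain ⟨F, hF⟩ : ∃ F : Finset L, ∀ i j g, (p i j).coeff g ≠ 0 → g ∈ F := by
    refine ⟨Finset.univ.biUnion fun q : Fin n × Fin n => (p q.1 q.2).coeff.support, ?_⟩
    intro i j g hg
    exact Finset.mem_biUnion.2 ⟨(i, j), Finset.mem_univ _, Finsupp.mem_support_iff.2 hg⟩
  obtain ⟨H, hH, hW⟩ := h (F.image fun q : L => (q : G))
  let K : Subgroup L := H.subgroupOf L
  let g : K →* H :=
    { toFun := fun x => ⟨((x : L) : G), x.2⟩
      map_one' := rfl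
      map_mul' := fun _ _ => rfl }
  have hg : Function.Injective g := by
    intro x y hxy
    apply Subtype.ext
    apply Subtype.ext
    exact congrArg (fun z : H => (z : G)) hxy
  have hsf : AllStablyFree (MonoidAlgebra k K) := hW.inj g hg k hk
  -- the idempotent comes from the subgroup
  let p' : Matrix (Fin n) (Fin n) (MonoidAlgebra k K) := p.map (toSub K)
  have hp' : p'.map (inc k K) = p := by
    ext1 i j
    change inc k K (toSub K (p i j)) = p i j
    apply inc_toSub
    intro x hx
    exact hH _ (Finset.mem_image.2 ⟨x, hF i j x hx, rfl⟩)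
  have hidem : p' * p' = p' := by
    have hinj : Function.Injective (fun M : Matrix (Fin n) (Fin n) (MonoidAlgebra k K) =>
        M.map (inc k K)) := by
      intro M N hMN
      ext1 i j
      exact inc_inj K (congrFun (congrFun hMN i) j)
    apply hinj
    beta_reduce
    rw [Matrix.map_mul, hp', hp]
  have h1 : StablyFree (MonoidAlgebra k K) (Mo p') := by
    have := mo_finite p'
    have := mo_projective hidem
    exact hsf _
  have h2 := stablyFree_map (inc k K) hidem h1
  rwa [hp'] at h2

/-- **The hereditary closure theorem** -/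
theorem KG.tree {V : Type} [MulAction G V] {T : SimpleGraph V} (hT : T.IsTree)
    (hact : ∀ (g : G) (v w : V), T.Adj v w → T.Adj (g • v) (g • w))
    (hinv : ∀ (g : G) (v w : V), T.Adj v w → ¬ (g • v = w ∧ g • w = v))
    (hV : ∀ v : V, KG (MulAction.stabilizer G v))
    (hm : ∀ p : ℕ → V, (∀ i, T.Adj (p i) (p (i + 1))) → (∀ i, p (i + 2) ≠ p i) →
      ∃ m, ∀ (k : Type) [Ring k], RegC k → Nice (MonoidAlgebra k (Fx G m p))) : KG G := by
  intro k _ hk K
  rcases subsingleton_or_nontrivial k with hk0 | hk0
  · have : Subsingleton (MonoidAlgebra k K) := by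
      constructor
      intro x y
      apply MonoidAlgebra.coeff_injective
      ext g
      exact Subsingleton.elim _ _
    exact sf_trivial
  have hL := hk.lau
  have := hL.noeth
  refine stablyFree_tree (G := K) (V := V) (T := T) hT (fun g v w h => hact g v w h)
    (fun g v w h => hinv g v w h) ?_ ?_ ?_
  · intro v
    let f : MulAction.stabilizer K v →* MulAction.stabilizer G v :=
      { toFun := fun x => ⟨((x : K) : G), x.2⟩
        map_one' := rfl
        map_mul' := fun _ _ => rfl }
    refine (hV v).inj f ?_ k hk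
    intro x y hxy
    apply Subtype.ext
    apply Subtype.ext
    exact congrArg (fun z : MulAction.stabilizer G v => (z : G)) hxy
  · intro v w _
    let f : MulAction.stabilizer K ((v, w) : V × V) →* MulAction.stabilizer G v :=
      { toFun := fun x => ⟨((x : K) : G), congrArg Prod.fst (MulAction.mem_stabilizer_iff.1 x.2)⟩
        map_one' := rfl
        map_mul' := fun _ _ => rfl }
    refine (hV v).inj f ?_ _ hL
    intro x y hxy
    apply Subtype.ext
    apply Subtype.ext
    exact congrArg (fun z : MulAction.stabilizer G v => (z : G)) hxy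
  · intro p h1 h2
    obtain ⟨m, hm⟩ := hm p h1 h2
    refine ⟨m, ?_⟩
    let f : Fx K m p →* Fx G m p :=
      { toFun := fun x => ⟨((x : K) : G), x.2⟩
        map_one' := rfl
        map_mul' := fun _ _ => rfl }
    have hf : Function.Injective f := by
      intro x y hxy
      apply Subtype.ext
      apply Subtype.ext
      exact congrArg (fun z : Fx G m p => (z : G)) hxy
    exact nice_congr (MonoidHom.ofInjective hf).symm (Nice.sub f.range (hm _ hL))

/-- the trivial subgroup -/
theorem nice_bot' {k : Type} [Ring k] (h : Nice k) {H : Subgroup G} (hH : H = ⊥) :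
    Nice (MonoidAlgebra k H) := by
  subst hH
  exact Nice.ringEquiv (MonoidAlgebra.uniqueRingEquiv (R := k) (M := (⊥ : Subgroup G))).symm h

theorem RegC.ringEquiv {k k' : Type} [Ring k] [Ring k'] (e : k ≃+* k') (h : RegC k) : RegC k' where
  noeth := by
    have := h.noeth
    exact isNoetherianRing_of_ringEquiv k e
  nice := Nice.ringEquiv e h.nice
  sf := AllStablyFree.ringEquiv e h.sf

theorem RegC.zp {k : Type} [Ring k] (h : RegC k) (n : ℕ) : RegC (MonoidAlgebra k (Zp n)) := by
  induction n with
  | zero => exact RegC.ringEquiv (MonoidAlgebra.uniqueRingEquiv (R := k) (M := Zp 0)).symm h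
  | succ n ih =>
    let e1 : Lau (MonoidAlgebra k (Zp n)) ≃+* MonoidAlgebra k (Multiplicative ℤ × Zp n) :=
      (MonoidAlgebra.curryRingEquiv (R := k) (M := Multiplicative ℤ) (N := Zp n)).symm
    exact RegC.ringEquiv (MonoidAlgebra.mapDomainRingEquiv k (zpSucc n).symm)
      (RegC.ringEquiv e1 ih.lau)

theorem RegC.pid (k : Type) [CommRing k] [IsDomain k] [IsPrincipalIdealRing k] : RegC k where
  noeth := inferInstance
  nice := nice_pid k
  sf := by
    intro P _ _ _ _
    have h1 : Module.Free k P := Module.free_of_finite_type_torsion_free'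
    exact StablyFree.iso (Module.finBasis k P).equivFun.symm StablyFree.of_free

/-- subgroups of free abelian groups -/
theorem zp_sub (m : ℕ) (H : Subgroup (Zp m)) : ∃ n, Nonempty (H ≃* Zp n) := by
  let A : Submodule ℤ (Fin m → ℤ) := AddSubgroup.toIntSubmodule (Subgroup.toAddSubgroup' H)
  obtain ⟨k, b⟩ := Submodule.basisOfPid (Pi.basisFun ℤ (Fin m)) A
  let e1 : A ≃+ (Fin k → ℤ) := b.equivFun.toAddEquiv
  exact ⟨k, ⟨
    { toFun := fun x => Multiplicative.ofAdd (e1 ⟨Multiplicative.toAdd (x : Zp m), x.2⟩)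
      invFun := fun y => ⟨Multiplicative.ofAdd ((e1.symm (Multiplicative.toAdd y) : A) : Fin m → ℤ),
        (e1.symm (Multiplicative.toAdd y)).2⟩
      left_inv := fun x => by
        apply Subtype.ext
        simp
      right_inv := fun y => by
        simp
      map_mul' := fun x y => by
        apply Multiplicative.toAdd.injective
        change e1 _ = e1 _ + e1 _
        rw [← map_add]
        rfl }⟩⟩

theorem kg_zp (m : ℕ) : KG (Zp m) := by
  intro k _ hk H
  obtain ⟨n, ⟨e⟩⟩ := zp_sub m H
  exact sf_congr e.symm (hk.zp n).sf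

/-- products with free abelian groups -/
theorem KG.prod (h : KG G) {k : Type} [Ring k] (hk : RegC k) (H : Subgroup G) (n : ℕ) :
    AllStablyFree (MonoidAlgebra k (H × Zp n)) := by
  let e1 : MonoidAlgebra (MonoidAlgebra k (Zp n)) H ≃+* MonoidAlgebra k (H × Zp n) :=
    (MonoidAlgebra.curryRingEquiv (R := k) (M := H) (N := Zp n)).symm
  exact AllStablyFree.ringEquiv e1 (h _ (hk.zp n) H)

end cls

section reg

variable {k : Type} [Ring k]

/-- regular noetherian rings -/
theorem nice_of_fpd (h : ∀ (M : Type) [AddCommGroup M] [Module k M] [Module.Finite k M],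
    ∃ n, FPD k n M) : Nice k := by
  apply RegularCoherent.nice
  intro M _ _ _
  exact h M

theorem fpd_of_nice [IsNoetherianRing k] (h : Nice k) (M : Type) [AddCommGroup M] [Module k M]
    [Module.Finite k M] : ∃ n, FPD k n M := by
  classical
  obtain ⟨n, f, hf⟩ := Module.Finite.exists_fin' k M
  have hfg : (LinearMap.ker f).FG := IsNoetherian.noetherian _
  obtain ⟨m, g, hg⟩ := Submodule.fg_iff_exists_fin_generating_family.1 hfg
  let P : Matrix (Fin m) (Fin n) k := Matrix.of g
  have hP : LinearMap.range P.vecMulLinear = LinearMap.ker f := by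
    rw [← hg]
    apply le_antisymm
    · rintro _ ⟨v, rfl⟩
      have h1 : P.vecMulLinear v = ∑ i, v i • g i := by
        funext j
        rw [Finset.sum_apply]
        rfl
      rw [h1]
      exact Submodule.sum_mem _ fun i _ =>
        Submodule.smul_mem _ _ (Submodule.subset_span ⟨i, rfl⟩)
    · rw [Submodule.span_le]
      rintro _ ⟨i, rfl⟩
      refine ⟨Pi.single i 1, ?_⟩
      change Pi.single i 1 ᵥ* P = g i
      rw [Matrix.single_one_vecMul]
      rfl
  obtain ⟨d, hd⟩ := h (Fin m) (Fin n) P
  have h1 := hd.fpd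
  rw [hP] at h1
  exact ⟨d + 1, Fin n, inferInstance, f, hf, h1⟩

end reg

end Pool.Agent.H1.MK
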