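import Pool.Agent.H1.MV.Syz2

set_option autoImplicit false
set_option linter.unusedSectionVars false
set_option linter.unusedSimpArgs false

/-!
# Hilbert's basis theorem for Laurent polynomials over noncommutative rings
-/

namespace Pool.Agent.H1.MK

open Matrix TH57.Thr Pool.Agent.K4H37.MT Pool.Agent.H1.MV

section hil

variable {S : Type} [Ring S]

theorem cf_C_mul (s : S) (x : Lau S) (n : ℤ) : cf (Cc S s * x) n = s * cf x n := by
  unfold MV.cf
  rw [Cc_apply, MonoidAlgebra.coeff_single_mul_apply]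
  congr 2
  change (0 : ℤ) * 0 + n = n
  simp

theorem tn_comm (n : ℤ) (x : Lau S) : tn S n * x = x * tn S n := tp_comm n x

/-- the leading coefficients of degree `n` -/
noncomputable def Jn (I : Submodule (Lau S) (Lau S)) (n : ℕ) : Submodule S S where
  carrier := {a | ∃ x ∈ I, (∀ m : ℤ, m < 0 → cf x m = 0) ∧ (∀ m : ℤ, (n : ℤ) < m → cf x m = 0) ∧
    cf x n = a}
  add_mem' := by
    rintro a b ⟨x, hx, h1, h2, rfl⟩ ⟨y, hy, h3, h4, rfl⟩
    refine ⟨x + y, I.add_mem hx hy, ?_, ?_, MV.cf_add _ _ _⟩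
    · intro m hm
      rw [MV.cf_add, h1 m hm, h3 m hm, add_zero]
    · intro m hm
      rw [MV.cf_add, h2 m hm, h4 m hm, add_zero]
  zero_mem' := ⟨0, I.zero_mem, fun m _ => cf_zero m, fun m _ => cf_zero m, cf_zero _⟩
  smul_mem' := by
    rintro s a ⟨x, hx, h1, h2, rfl⟩
    refine ⟨Cc S s * x, I.smul_mem (Cc S s) hx, ?_, ?_, cf_C_mul _ _ _⟩
    · intro m hm
      rw [cf_C_mul, h1 m hm, mul_zero]
    · intro m hm
      rw [cf_C_mul, h2 m hm, mul_zero]

theorem Jn_mono {I I' : Submodule (Lau S) (Lau S)} (h : I ≤ I') (n : ℕ) : Jn I n ≤ Jn I' n := by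
  rintro a ⟨x, hx, h1, h2, h3⟩
  exact ⟨x, h hx, h1, h2, h3⟩

theorem Jn_succ (I : Submodule (Lau S) (Lau S)) (n : ℕ) : Jn I n ≤ Jn I (n + 1) := by
  rintro a ⟨x, hx, h1, h2, h3⟩
  refine ⟨x * tn S 1, ?_, ?_, ?_, ?_⟩
  · rw [← tn_comm]
    exact I.smul_mem _ hx
  · intro m hm
    rw [cf_tn]
    exact h1 _ (by omega)
  · intro m hm
    rw [cf_tn]
    apply h2
    push_cast at hm
    omega
  · rw [cf_tn, ← h3]
    congr 1
    push_cast
    omega

theorem Jn_le_of_le (I : Submodule (Lau S) (Lau S)) {n m : ℕ} (h : n ≤ m) : Jn I n ≤ Jn I m := by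
  induction h with
  | refl => exact le_rfl
  | step _ ih => exact ih.trans (Jn_succ I _)

theorem cf_upper (x : Lau S) : ∃ N : ℕ, ∀ m : ℤ, (N : ℤ) ≤ m → cf x m = 0 := by
  classical
  refine ⟨(x.coeff.support.image fun g => (Multiplicative.toAdd g).toNat).sup id + 1, ?_⟩
  intro n hn
  by_contra h
  have h1 : Multiplicative.ofAdd n ∈ x.coeff.support := Finsupp.mem_support_iff.2 h
  have h2 : n.toNat ≤ (x.coeff.support.image fun g => (Multiplicative.toAdd g).toNat).sup id :=
    Finset.le_sup (f := id) (Finset.mem_image.2 ⟨_, h1, rfl⟩)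
  push_cast at hn
  omega

theorem le_of_Jn {I I' : Submodule (Lau S) (Lau S)} (h : I ≤ I') (hJ : ∀ n, Jn I' n ≤ Jn I n) :
    I' ≤ I := by
  have key : ∀ (n : ℕ) (x : Lau S), x ∈ I' → (∀ m : ℤ, m < 0 → cf x m = 0) →
      (∀ m : ℤ, (n : ℤ) ≤ m → cf x m = 0) → x ∈ I := by
    intro n
    induction n with
    | zero =>
      intro x _ h1 h2
      have : x = 0 := by
        apply cf_ext
        intro m
        rw [cf_zero]
        rcases lt_or_ge m 0 with h3 | h3
        · exact h1 m h3
        · exact h2 m (by simpa using h3)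
      rw [this]
      exact I.zero_mem
    | succ n ih =>
      intro x hx h1 h2
      obtain ⟨y, hy, h3, h4, h5⟩ := hJ n ⟨x, hx, h1, fun m hm => h2 m (by push_cast; omega), rfl⟩
      have h6 : x - y ∈ I := by
        apply ih
        · exact I'.sub_mem hx (h hy)
        · intro m hm
          rw [MV.cf_sub, h1 m hm, h3 m hm, sub_zero]
        · intro m hm
          rw [MV.cf_sub]
          rcases eq_or_lt_of_le hm with h7 | h7
          · rw [← h7, h5, sub_self]
          · rw [h2 m (by push_cast; omega), h4 m h7, sub_zero]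
      have h7 := I.add_mem h6 hy
      rwa [sub_add_cancel] at h7
  intro x hx
  obtain ⟨m, hm⟩ := cf_bounded x
  have hx' : x * tn S m ∈ I' := by
    rw [← tn_comm]
    exact I'.smul_mem _ hx
  obtain ⟨N, hN⟩ := cf_upper (x * tn S m)
  have h1 := key N _ hx' (fun n hn => by
    rw [cf_tn]
    exact hm _ (by omega)) hN
  have h2 := I.smul_mem (tn S (-(m : ℤ))) h1
  rw [smul_eq_mul, tn_comm, tn_mul, add_neg_cancel, tn_zero] at h2
  exact h2

/-- **Hilbert's basis theorem** -/
theorem noeth_lau [IsNoetherianRing S] : IsNoetherianRing (Lau S) := by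
  apply monotone_stabilizes_iff_noetherian.1
  intro f
  have hst := fun g : ℕ →o Submodule S S => (monotone_stabilizes_iff_noetherian.2
    (inferInstance : IsNoetherian S S)) g
  -- the diagonal
  obtain ⟨N, hN⟩ := hst ⟨fun i => Jn (f i) i, fun i j hij =>
    (Jn_mono (f.monotone hij) i).trans (Jn_le_of_le _ hij)⟩
  have hN' : ∀ m, N ≤ m → Jn (f N) N = Jn (f m) m := hN
  have hM : ∀ i, ∃ n, ∀ m, n ≤ m → Jn (f n) i = Jn (f m) i := fun i =>
    hst ⟨fun m => Jn (f m) i, fun _ _ hab => Jn_mono (f.monotone hab) i⟩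
  choose M hM using hM
  refine ⟨max N ((Finset.range N).sup M), fun m hm => ?_⟩
  set n := max N ((Finset.range N).sup M) with hn
  apply le_antisymm (f.monotone hm)
  apply le_of_Jn (f.monotone hm)
  intro i
  rcases lt_or_ge i N with h | h
  · have h1 : M i ≤ n := (Finset.le_sup (f := M) (Finset.mem_range.2 h)).trans (le_max_right _ _)
    rw [← hM i m (h1.trans hm), ← hM i n h1]
  · have h1 : N ≤ n := le_max_left _ _
    calc Jn (f m) i ≤ Jn (f (max m i)) (max m i) :=
          (Jn_mono (f.monotone (le_max_left _ _)) i).trans (Jn_le_of_le _ (le_max_right _ _))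
      _ = Jn (f N) N := (hN' _ (h.trans (le_max_right _ _))).symm
      _ ≤ Jn (f n) i := (Jn_mono (f.monotone h1) N).trans (Jn_le_of_le _ h)

end hil

end Pool.Agent.H1.MK
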