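import Pool.Agent.H1.MV.SFR

set_option autoImplicit false
set_option linter.unusedSectionVars false
set_option linter.unusedSimpArgs false

/-!
# The boundary map: block sums, reindexing, functoriality
-/

namespace Pool.Agent.H1.MK

open Matrix TH57.Thr Pool.Agent.K4H37.MT Pool.Agent.H1.MV

section sum

variable {S : Type} [Ring S] {ι μ : Type} [Fintype ι] [DecidableEq ι] [Fintype μ] [DecidableEq μ]

theorem rc_sum {A1 B1 : Submodule S (ι → Lau S)} {A2 B2 : Submodule S (μ → Lau S)}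
    {A B : Submodule S (ι ⊕ μ → Lau S)}
    (hA : ∀ v, v ∈ A ↔ (v ∘ Sum.inl) ∈ A1 ∧ (v ∘ Sum.inr) ∈ A2)
    (hB : ∀ v, v ∈ B ↔ (v ∘ Sum.inl) ∈ B1 ∧ (v ∘ Sum.inr) ∈ B2) {x y : KZ S}
    (h1 : RC A1 B1 x) (h2 : RC A2 B2 y) : RC A B (x * y) := by
  obtain ⟨i1, P, _, _, _, _, f, hf, hf0, hx⟩ := h1
  obtain ⟨i2, Q, _, _, _, _, g, hg, hg0, hy⟩ := h2
  refine ⟨fun v hv => (hA v).2 ⟨i1 ((hB v).1 hv).1, i2 ((hB v).1 hv).2⟩, P × Q, inferInstance,
    inferInstance, inferInstance, inferInstance,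
    { toFun := fun v => (f ⟨(v : ι ⊕ μ → Lau S) ∘ Sum.inl, ((hA v).1 v.2).1⟩,
        g ⟨(v : ι ⊕ μ → Lau S) ∘ Sum.inr, ((hA v).1 v.2).2⟩)
      map_add' := ?_
      map_smul' := ?_ }, ?_, ?_, ?_⟩
  · intro v w
    exact Prod.ext (f.map_add ⟨_, ((hA v).1 v.2).1⟩ ⟨_, ((hA w).1 w.2).1⟩)
      (g.map_add ⟨_, ((hA v).1 v.2).2⟩ ⟨_, ((hA w).1 w.2).2⟩)
  · intro s v
    exact Prod.ext (f.map_smul s ⟨_, ((hA v).1 v.2).1⟩) (g.map_smul s ⟨_, ((hA v).1 v.2).2⟩)
  · rintro ⟨p, q⟩
    obtain ⟨⟨a, ha⟩, hap⟩ := hf p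
    obtain ⟨⟨b, hb⟩, hbq⟩ := hg q
    exact ⟨⟨Sum.elim a b, (hA _).2 ⟨ha, hb⟩⟩, Prod.ext hap hbq⟩
  · intro v
    rw [hB]
    constructor
    · intro h
      exact ⟨(hf0 ⟨_, ((hA v).1 v.2).1⟩).1 (congrArg Prod.fst h),
        (hg0 ⟨_, ((hA v).1 v.2).2⟩).1 (congrArg Prod.snd h)⟩
    · rintro ⟨h1, h2⟩
      exact Prod.ext ((hf0 ⟨_, ((hA v).1 v.2).1⟩).2 h1) ((hg0 ⟨_, ((hA v).1 v.2).2⟩).2 h2)
  · rw [← hx, ← hy, kz_mul]

theorem rc_re (e : μ ≃ ι) {A B : Submodule S (ι → Lau S)} {A' B' : Submodule S (μ → Lau S)}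
    (hA : ∀ v, v ∈ A' ↔ (v ∘ e.symm) ∈ A) (hB : ∀ v, v ∈ B' ↔ (v ∘ e.symm) ∈ B) {x : KZ S}
    (h : RC A B x) : RC A' B' x := by
  obtain ⟨i1, P, _, _, _, _, f, hf, hf0, hx⟩ := h
  refine ⟨fun v hv => (hA v).2 (i1 ((hB v).1 hv)), P, inferInstance,
    inferInstance, inferInstance, inferInstance,
    { toFun := fun v => f ⟨(v : μ → Lau S) ∘ e.symm, (hA v).1 v.2⟩
      map_add' := ?_
      map_smul' := ?_ }, ?_, ?_, hx⟩
  · intro v w
    exact f.map_add ⟨_, (hA v).1 v.2⟩ ⟨_, (hA w).1 w.2⟩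
  · intro s v
    exact f.map_smul s ⟨_, (hA v).1 v.2⟩
  · intro p
    obtain ⟨⟨a, ha⟩, hap⟩ := hf p
    have h1 : (a ∘ e) ∘ e.symm = a := by
      funext i
      simp
    refine ⟨⟨a ∘ e, (hA _).2 (by rw [h1]; exact ha)⟩, ?_⟩
    rw [← hap]
    change f _ = f _
    congr 1
    exact Subtype.ext h1
  · intro v
    rw [hB]
    exact hf0 ⟨_, (hA v).1 v.2⟩

theorem Bd.bsum {u : (Matrix ι ι (Lau S))ˣ} {w : (Matrix μ μ (Lau S))ˣ} {x y : KZ S}
    (h : Bd u x) (h' : Bd w y) : Bd (blockSum u w) (x * y) := by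
  obtain ⟨k, hk⟩ := h
  obtain ⟨l, hl⟩ := h'
  refine Bd.of_one (k := max k l) (rc_sum ?_ ?_ (hk (max k l) (le_max_left _ _))
    (hl (max k l) (le_max_right _ _)))
  · intro v
    unfold Dl
    rw [mem_map_rm, mem_map_rm, mem_map_rm, blockSum_inv]
    have h1 : v ᵥ* (blockSum u⁻¹ w⁻¹).val = Sum.elim ((v ∘ Sum.inl) ᵥ* (u⁻¹).val)
        ((v ∘ Sum.inr) ᵥ* (w⁻¹).val) := by
      change v ᵥ* fromBlocks (u⁻¹).val 0 0 (w⁻¹).val = _
      rw [Matrix.vecMul_fromBlocks, Matrix.vecMul_zero, Matrix.vecMul_zero, add_zero, zero_add]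
    rw [h1]
    constructor
    · intro h
      exact ⟨fun i n hn => h (Sum.inl i) n hn, fun i n hn => h (Sum.inr i) n hn⟩
    · rintro ⟨h1, h2⟩ (i | i) n hn
      · exact h1 i n hn
      · exact h2 i n hn
  · intro v
    constructor
    · intro h
      exact ⟨fun i n hn => h (Sum.inl i) n hn, fun i n hn => h (Sum.inr i) n hn⟩
    · rintro ⟨h1, h2⟩ (i | i) n hn
      · exact h1 i n hn
      · exact h2 i n hn

theorem Bd.re (e : μ ≃ ι) {u : (Matrix ι ι (Lau S))ˣ} {x : KZ S}
    (h : Bd u x) : Bd (Units.map (TH57.Thr.re e) u) x := by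
  obtain ⟨k, hk⟩ := h
  refine Bd.of_one (k := k) (rc_re e ?_ ?_ (hk k le_rfl))
  · intro v
    unfold Dl
    rw [mem_map_rm, mem_map_rm]
    have h1 : ∀ i, (v ᵥ* ((Units.map (TH57.Thr.re e) u)⁻¹).val) (e.symm i) =
        ((v ∘ e.symm) ᵥ* (u⁻¹).val) i := by
      intro i
      rw [← map_inv]
      change ∑ j, v j * (u⁻¹).val (e j) (e (e.symm i)) = ∑ j, v (e.symm j) * (u⁻¹).val j i
      rw [← Equiv.sum_comp e (fun j => v (e.symm j) * (u⁻¹).val j i)]
      apply Finset.sum_congr rfl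
      intro j _
      rw [Equiv.symm_apply_apply, Equiv.apply_symm_apply]
    constructor
    · intro h i n hn
      rw [← h1]
      exact h (e.symm i) n hn
    · intro h i n hn
      have h2 := h (e i) n hn
      rw [← h1, Equiv.symm_apply_apply] at h2
      exact h2
  · intro v
    constructor
    · intro h i n hn
      exact h (e.symm i) n hn
    · intro h i n hn
      have h2 := h (e i) n hn
      change cf (v (e.symm (e i))) n = 0 at h2
      rwa [Equiv.symm_apply_apply] at h2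

end sum

section fun_

variable {S' S : Type} [Ring S'] [Ring S] (φ : S' →+* S) {ι : Type} [Fintype ι] [DecidableEq ι]

/-- the extension of a ring homomorphism to Laurent polynomials -/
noncomputable def LF : Lau S' →+* Lau S := MonoidAlgebra.mapRingHom (Multiplicative ℤ) φ

theorem LF_coeff (x : Lau S') (m : Multiplicative ℤ) : (LF φ x).coeff m = φ (x.coeff m) := by
  unfold LF
  simp

theorem cf_LF (x : Lau S') (n : ℤ) : cf (LF φ x) n = φ (cf x n) := LF_coeff φ x _

theorem LF_single (m : Multiplicative ℤ) (s : S') :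
    LF φ (MonoidAlgebra.single m s) = MonoidAlgebra.single m (φ s) := by
  unfold LF
  simp

/-- the monomial rows -/
noncomputable def mno (S : Type) [Ring S] {ι : Type} [DecidableEq ι] (i : ι) (m : Multiplicative ℤ) :
    ι → Lau S := Pi.single i (MonoidAlgebra.single m 1)

theorem row_expand (v : ι → Lau S) :
    v = ∑ i, (v i).coeff.sum fun m c => c • mno S i m := by
  funext j
  rw [Finset.sum_apply, Finset.sum_eq_single j]
  · rw [Finsupp.sum, Finset.sum_apply]
    conv_lhs => rw [← MonoidAlgebra.sum_coeff_single (v j)]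
    rw [Finsupp.sum]
    apply Finset.sum_congr rfl
    intro m _
    unfold mno
    rw [Pi.smul_apply, Pi.single_eq_same, MonoidAlgebra.smul_single, smul_eq_mul, mul_one]
  · intro i _ hi
    rw [Finsupp.sum, Finset.sum_apply]
    apply Finset.sum_eq_zero
    intro m _
    unfold mno
    rw [Pi.smul_apply, Pi.single_eq_of_ne (Ne.symm hi), smul_zero]
  · intro h
    exact absurd (Finset.mem_univ _) h

/-- induction over the monomials of a lattice -/
theorem lat_ind {a : ι → ℤ} {P : (ι → Lau S) → Prop} (h0 : P 0)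
    (hadd : ∀ v w, P v → P w → P (v + w)) (hsmul : ∀ (c : S) v, P v → P (c • v))
    (hmono : ∀ i m, a i ≤ Multiplicative.toAdd m → P (mno S i m)) (w : ι → Lau S)
    (hw : w ∈ (Lt a : Submodule S (ι → Lau S))) : P w := by
  classical
  rw [row_expand w]
  have hs : ∀ (T : Finset ι) (f : ι → ι → Lau S), (∀ i ∈ T, P (f i)) → P (∑ i ∈ T, f i) := by
    intro T f
    induction T using Finset.induction_on with
    | empty => intro _; rw [Finset.sum_empty]; exact h0
    | insert i T hi ih =>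
      intro h
      rw [Finset.sum_insert hi]
      exact hadd _ _ (h i (Finset.mem_insert_self _ _))
        (ih fun j hj => h j (Finset.mem_insert_of_mem hj))
  have hs' : ∀ (T : Finset (Multiplicative ℤ)) (f : Multiplicative ℤ → ι → Lau S),
      (∀ i ∈ T, P (f i)) → P (∑ i ∈ T, f i) := by
    intro T f
    induction T using Finset.induction_on with
    | empty => intro _; rw [Finset.sum_empty]; exact h0
    | insert i T hi ih =>
      intro h
      rw [Finset.sum_insert hi]
      exact hadd _ _ (h i (Finset.mem_insert_self _ _))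
        (ih fun j hj => h j (Finset.mem_insert_of_mem hj))
  apply hs
  intro i _
  rw [Finsupp.sum]
  apply hs'
  intro m hm
  apply hsmul
  apply hmono
  by_contra hlt
  push Not at hlt
  exact (Finsupp.mem_support_iff.1 hm) (hw i _ hlt)

theorem lat_le {k : ℤ} {D : Submodule S (ι → Lau S)}
    (h : ∀ i m, k ≤ Multiplicative.toAdd m → mno S i m ∈ D) : Lc S ι k ≤ D := fun w hw =>
  lat_ind (a := fun _ => k) (P := fun w => w ∈ D) D.zero_mem (fun _ _ => D.add_mem)
    (fun c _ => D.smul_mem c) h w hw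

variable {n : ℕ}

/-- the extension of a linear map to the larger ring -/
noncomputable def ext' (g : (ι → Lau S') →ₗ[S'] (Fin n → S')) :
    (ι → Lau S) →ₗ[S] (Fin n → S) where
  toFun w := ∑ i, (w i).coeff.sum fun m c => c • fun l => φ (g (mno S' i m) l)
  map_add' v w := by
    rw [← Finset.sum_add_distrib]
    apply Finset.sum_congr rfl
    intro i _
    rw [Pi.add_apply, MonoidAlgebra.coeff_add, Finsupp.sum_add_index']
    · intro m
      rw [zero_smul]
    · intro m c c'
      rw [add_smul]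
  map_smul' s v := by
    rw [RingHom.id_apply, Finset.smul_sum]
    apply Finset.sum_congr rfl
    intro i _
    rw [Pi.smul_apply, MonoidAlgebra.coeff_smul, Finsupp.sum_smul_index, Finsupp.smul_sum]
    · apply Finsupp.sum_congr
      intro m _
      rw [mul_smul]
    · intro m
      rw [zero_smul]

/-- the extension of rows -/
noncomputable def rw' (v : ι → Lau S') : ι → Lau S := fun i => LF φ (v i)

theorem ext'_rw (g : (ι → Lau S') →ₗ[S'] (Fin n → S')) (v : ι → Lau S') :
    ext' φ g (rw' φ v) = fun l => φ (g v l) := by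
  funext l
  have h1 : g v = ∑ i, (v i).coeff.sum fun m c => c • g (mno S' i m) := by
    conv_lhs => rw [row_expand v]
    rw [map_sum]
    apply Finset.sum_congr rfl
    intro i _
    rw [Finsupp.sum, map_sum]
    apply Finset.sum_congr rfl
    intro m _
    rw [map_smul]
  rw [h1]
  change (∑ i, (rw' φ v i).coeff.sum fun m c => c • fun l => φ (g (mno S' i m) l)) l = _
  rw [Finset.sum_apply, Finset.sum_apply, map_sum]
  apply Finset.sum_congr rfl
  intro i _
  have h2 : (rw' φ v i).coeff = (v i).coeff.mapRange φ (map_zero φ) := by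
    ext m
    rw [Finsupp.mapRange_apply]
    exact LF_coeff φ _ _
  rw [h2, Finsupp.sum_mapRange_index (by intro m; rw [zero_smul]), Finsupp.sum, Finsupp.sum,
    Finset.sum_apply, Finset.sum_apply, map_sum]
  apply Finset.sum_congr rfl
  intro m _
  rw [Pi.smul_apply, Pi.smul_apply, smul_eq_mul, smul_eq_mul, map_mul]

theorem rw_vecMul (v : ι → Lau S') (u : Matrix ι ι (Lau S')) :
    rw' φ (v ᵥ* u) = rw' φ v ᵥ* u.map (LF φ) := by
  funext j
  change LF φ (∑ i, v i * u i j) = ∑ i, LF φ (v i) * LF φ (u i j)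
  rw [map_sum]
  apply Finset.sum_congr rfl
  intro i _
  rw [map_mul]

theorem rw_mno (i : ι) (m : Multiplicative ℤ) : rw' φ (mno S' i m) = mno S i m := by
  funext j
  unfold rw' mno
  by_cases h : j = i
  · subst h
    rw [Pi.single_eq_same, Pi.single_eq_same, LF_single, map_one]
  · rw [Pi.single_eq_of_ne h, Pi.single_eq_of_ne h, map_zero]

theorem rw_add (v w : ι → Lau S') : rw' φ (v + w) = rw' φ v + rw' φ w := by
  funext i
  exact map_add (LF φ) _ _

theorem rw_smul (s : S') (v : ι → Lau S') : rw' φ (s • v) = φ s • rw' φ v := by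
  funext i
  apply cf_ext
  intro n
  change cf (LF φ (s • v i)) n = cf (φ s • LF φ (v i)) n
  rw [cf_LF, MV.cf_smul, MV.cf_smul, cf_LF, map_mul]

theorem rw_Lc {k : ℤ} {v : ι → Lau S'} (h : v ∈ Lc S' ι k) : rw' φ v ∈ Lc S ι k := by
  intro i n hn
  change cf (LF φ (v i)) n = 0
  rw [cf_LF, h i n hn, map_zero]

theorem mno_Lc {k : ℤ} {i : ι} {m : Multiplicative ℤ} (h : k ≤ Multiplicative.toAdd m) :
    mno S i m ∈ Lc S ι k := by
  intro j n hn
  have hn' : n < k := hn
  unfold mno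
  by_cases h2 : j = i
  · subst h2
    rw [Pi.single_eq_same]
    change cf (MonoidAlgebra.single (Multiplicative.ofAdd (Multiplicative.toAdd m)) 1) n = 0
    rw [cf_single, if_neg]
    omega
  · rw [Pi.single_eq_of_ne h2, cf_zero]

/-- **Functoriality of the boundary map**: if all finitely generated projective modules over `S'`
are stably free, then the boundary vanishes on the matrices which come from `S'`. -/
theorem bd_map' (hS : AllStablyFree S') (u : (Matrix ι ι (Lau S'))ˣ) (u' : (Matrix ι ι (Lau S))ˣ)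
    (hu : u'.val = u.val.map (LF φ)) : Bd u' (1 : KZ S) := by
  classical
  obtain ⟨x, k, hk⟩ := Bd.exists u
  obtain ⟨hle, P, _, _, _, _, f, hf, hf0, _⟩ := hk k le_rfl
  obtain ⟨n, p, hp, ⟨e⟩⟩ := exists_mo (S := S') P
  -- the quotient map with values in rows
  let f₁ : Dl u →ₗ[S'] (Fin n → S') := (Mo p).subtype ∘ₗ e.toLinearMap ∘ₗ f
  have hf1 : ∀ d, f₁ d = ((e (f d) : Mo p) : Fin n → S') := fun _ => rfl
  have hf1p : ∀ d, f₁ d ᵥ* p = f₁ d := fun d => (mem_mo_iff hp _).1 (e (f d)).2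
  have hf10 : ∀ d : Dl u, f₁ d = 0 ↔ (d : ι → Lau S') ∈ Lc S' ι k := by
    intro d
    rw [← hf0 d, hf1]
    constructor
    · intro h
      exact e.map_eq_zero_iff.1 (Subtype.ext h)
    · intro h
      rw [h, map_zero]; rfl
  have hsec : ∀ l : Fin n, ∃ σ : Dl u, f₁ σ = p l := by
    intro l
    have h1 : p l ∈ Mo p := by
      refine ⟨Pi.single l 1, ?_⟩
      change Pi.single l 1 ᵥ* p = p l
      rw [Matrix.single_one_vecMul]
      rfl
    obtain ⟨d, hd⟩ := hf (e.symm ⟨p l, h1⟩)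
    refine ⟨d, ?_⟩
    rw [hf1, hd, LinearEquiv.apply_symm_apply]
  choose σ hσ using hsec
  have hker : ∀ d : Dl u, (d : ι → Lau S') - ∑ l, f₁ d l • (σ l : ι → Lau S') ∈ Lc S' ι k := by
    intro d
    have h1 : (d : ι → Lau S') - ∑ l, f₁ d l • (σ l : ι → Lau S') =
        ((d - ∑ l, f₁ d l • σ l : Dl u) : ι → Lau S') := by
      rw [Submodule.coe_sub, Submodule.coe_sum]
      rfl
    rw [h1, ← hf10, map_sub, map_sum]
    have h2 : ∑ l, f₁ (f₁ d l • σ l) = f₁ d ᵥ* p := by
      funext j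
      rw [Finset.sum_apply]
      apply Finset.sum_congr rfl
      intro l _
      rw [map_smul, hσ]
      rfl
    rw [h2, hf1p, sub_self]
  -- the retraction
  let r : (ι → Lau S') →ₗ[S'] Dl u := LinearMap.codRestrict (Dl u)
    ((rm u).toLinearMap ∘ₗ trn S' ι ∘ₗ (rm u).symm.toLinearMap)
    (fun v => Submodule.mem_map_of_mem (trn_mem _))
  have hr : ∀ d : Dl u, r (d : ι → Lau S') = d := by
    rintro ⟨_, ⟨w, hw, rfl⟩⟩
    apply Subtype.ext
    change rm u (trn S' ι ((rm u).symm (rm u w))) = rm u w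
    rw [LinearEquiv.symm_apply_apply, trn_eq hw]
  obtain ⟨g, hg⟩ : ∃ g : (ι → Lau S) →ₗ[S] (Fin n → S),
      ∀ d : Dl u, g (rw' φ (d : ι → Lau S')) = fun l => φ (f₁ d l) := by
    refine ⟨ext' φ (f₁ ∘ₗ r), ?_⟩
    intro d
    have h1 := ext'_rw φ (f₁ ∘ₗ r) (d : ι → Lau S')
    rw [LinearMap.comp_apply, hr] at h1
    exact h1
  -- induction over the lattice
  have hind : ∀ {Q : (ι → Lau S) → Prop}, Q 0 → (∀ v w, Q v → Q w → Q (v + w)) →
      (∀ (c : S) v, Q v → Q (c • v)) → (∀ d : Dl u, Q (rw' φ (d : ι → Lau S'))) →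
      ∀ w ∈ Dl u', Q w := by
    intro Q h0 hadd hsmul hd
    rintro _ ⟨w, hw, rfl⟩
    refine lat_ind (a := fun _ => (0 : ℤ)) (P := fun w => Q (rm u' w))
      ?_ ?_ ?_ ?_ w hw
    · beta_reduce
      rw [map_zero]; exact h0
    · intro v w hv hw
      rw [map_add]; exact hadd _ _ hv hw
    · intro c v hv
      rw [map_smul]; exact hsmul _ _ hv
    · intro i m hm
      have h1 : rm u' (mno S i m) =
          rw' φ (rm u (mno S' i m) : ι → Lau S') := by
        rw [rm_apply, rm_apply, rw_vecMul, rw_mno, hu]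
      rw [h1]
      exact hd ⟨_, Submodule.mem_map_of_mem (mno_Lc hm)⟩
  have hpφ : (p.map φ) * (p.map φ) = p.map φ := by
    rw [← Matrix.map_mul, hp]
  have hgm : ∀ w ∈ Dl u', g w ∈ Mo (p.map φ) := by
    refine hind ?_ ?_ ?_ ?_
    · rw [map_zero]; exact Submodule.zero_mem _
    · intro v w hv hw
      rw [map_add]; exact Submodule.add_mem _ hv hw
    · intro c v hv
      rw [map_smul]; exact Submodule.smul_mem _ _ hv
    · intro d
      rw [hg, mem_mo_iff hpφ]
      funext j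
      have h1 := congrFun (hf1p d) j
      change ∑ l, φ (f₁ d l) * φ (p l j) = φ (f₁ d j)
      rw [← h1]
      change _ = φ (∑ l, f₁ d l * p l j)
      rw [map_sum]
      apply Finset.sum_congr rfl
      intro l _
      rw [map_mul]
  have hgk : ∀ w ∈ Dl u',
      w - ∑ l, g w l • rw' φ (σ l : ι → Lau S') ∈ Lc S ι k := by
    refine hind ?_ ?_ ?_ ?_
    · rw [map_zero]
      simp
    · intro v w hv hw
      have h1 : v + w - ∑ l, g (v + w) l • rw' φ (σ l : ι → Lau S') =
          (v - ∑ l, g v l • rw' φ (σ l : ι → Lau S')) +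
          (w - ∑ l, g w l • rw' φ (σ l : ι → Lau S')) := by
        rw [map_add]
        simp only [Pi.add_apply, add_smul, Finset.sum_add_distrib]
        abel
      rw [h1]
      exact Submodule.add_mem _ hv hw
    · intro c v hv
      have h1 : c • v - ∑ l, g (c • v) l • rw' φ (σ l : ι → Lau S') =
          c • (v - ∑ l, g v l • rw' φ (σ l : ι → Lau S')) := by
        rw [map_smul, smul_sub, Finset.smul_sum]
        simp only [Pi.smul_apply, smul_eq_mul, mul_smul]
      rw [h1]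
      exact Submodule.smul_mem _ _ hv
    · intro d
      rw [hg]
      have h1 : rw' φ (d : ι → Lau S') - ∑ l, φ (f₁ d l) • rw' φ (σ l : ι → Lau S') =
          rw' φ ((d : ι → Lau S') - ∑ l, f₁ d l • (σ l : ι → Lau S')) := by
        rw [sub_eq_iff_eq_add]
        have h2 : ∀ (T : Finset (Fin n)), rw' φ (∑ l ∈ T, f₁ d l • (σ l : ι → Lau S')) =
            ∑ l ∈ T, φ (f₁ d l) • rw' φ (σ l : ι → Lau S') := by
          intro T
          induction T using Finset.induction_on with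
          | empty =>
            rw [Finset.sum_empty, Finset.sum_empty]
            funext i
            exact map_zero (LF φ)
          | insert l T hl ih =>
            rw [Finset.sum_insert hl, Finset.sum_insert hl, rw_add, rw_smul, ih]
        rw [← h2, ← rw_add, sub_add_cancel]
      rw [h1]
      exact rw_Lc φ (hker d)
  have hle' : Lc S ι k ≤ Dl u' := by
    apply lat_le
    intro i m hm
    obtain ⟨v, hv, hv'⟩ := hle (mno_Lc (S := S') (i := i) hm)
    refine ⟨rw' φ v, rw_Lc φ hv, ?_⟩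
    have h1 : rw' φ (rm u v : ι → Lau S') = rw' φ (mno S' i m) := congrArg (rw' φ) hv'
    rw [rw_mno, rm_apply, rw_vecMul, ← hu] at h1
    exact h1
  have hg0 : ∀ w ∈ Lc S ι k, g w = 0 := by
    intro w hw
    refine lat_ind (a := fun _ => k) (P := fun w => g w = 0) (map_zero g) ?_ ?_ ?_ w hw
    · intro v w hv hw
      rw [map_add, hv, hw, add_zero]
    · intro c v hv
      rw [map_smul, hv, smul_zero]
    · intro i m hm
      have h1 : mno S' i m ∈ Lc S' ι k := mno_Lc hm
      have h2 := hg ⟨_, hle h1⟩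
      rw [rw_mno] at h2
      rw [h2, (hf10 ⟨_, hle h1⟩).2 h1]
      funext l
      exact map_zero φ
  have hfin := mo_finite (p.map φ)
  have hproj := mo_projective hpφ
  have hsf : StablyFree S' (Mo p) := by
    have := mo_finite p
    have := mo_projective hp
    exact hS _
  have hsf' : StablyFree S (Mo (p.map φ)) := stablyFree_map φ hp hsf
  obtain ⟨F, hF⟩ : ∃ F : Dl u' →ₗ[S] Mo (p.map φ),
      ∀ w, ((F w : Mo (p.map φ)) : Fin n → S) = g w :=
    ⟨LinearMap.codRestrict (Mo (p.map φ)) (g.domRestrict (Dl u'))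
      (fun w => hgm w.1 w.2), fun w => rfl⟩
  have hσ' : ∀ l, rw' φ (σ l : ι → Lau S') ∈ Dl u' := by
    intro l
    obtain ⟨w, hw, hw'⟩ := (σ l).2
    refine ⟨rw' φ w, rw_Lc φ hw, ?_⟩
    have h1 : rw' φ (rm u w : ι → Lau S') = rw' φ (σ l : ι → Lau S') := congrArg (rw' φ) hw'
    rw [rm_apply, rw_vecMul, ← hu] at h1
    exact h1
  have hsurj : Function.Surjective F := by
    rintro ⟨w, ⟨v, hv⟩⟩
    refine ⟨⟨_, Submodule.sum_mem _ (fun l (_ : l ∈ Finset.univ) =>
      Submodule.smul_mem _ (v l) (hσ' l))⟩, ?_⟩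
    apply Subtype.ext
    rw [hF]
    refine Eq.trans ?_ hv
    change g (∑ l, v l • rw' φ (σ l : ι → Lau S')) = v ᵥ* p.map φ
    rw [map_sum]
    funext j
    rw [Finset.sum_apply]
    apply Finset.sum_congr rfl
    intro l _
    rw [map_smul, hg, hσ]
    rfl
  have hker' : ∀ w : Dl u', F w = 0 ↔ (w : ι → Lau S) ∈ Lc S ι k := by
    intro w
    constructor
    · intro h
      have h1 : g w = 0 := by
        rw [← hF, h]; rfl
      have h2 := hgk w w.2
      rw [h1] at h2
      have h3 : (w : ι → Lau S) - ∑ l, (0 : Fin n → S) l • rw' φ (σ l : ι → Lau S') = w := by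
        rw [Finset.sum_eq_zero (fun l _ => ?_), sub_zero]
        rw [Pi.zero_apply, zero_smul]
      rwa [h3] at h2
    · intro h
      apply Subtype.ext
      rw [hF, hg0 w h]; rfl
  have hone : @kz S _ (Mo (p.map φ)) _ _ hfin hproj = 1 := (@kz_one_iff S _ (Mo (p.map φ)) _ _ hfin hproj).2 hsf'
  exact Bd.of_one (k := k) ⟨hle', Mo (p.map φ), inferInstance, inferInstance, hfin, hproj, F, hsurj,
    hker', hone⟩

theorem bd_map (hS : AllStablyFree S') (u : (Matrix ι ι (Lau S'))ˣ) :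
    Bd (Units.map (mpm (LF φ)) u) (1 : KZ S) := bd_map' φ hS u _ rfl

end fun_

end Pool.Agent.H1.MK
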