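import Pool.Agent.H1.MK.Blk
import Pool.Agent.H1.MK.Bdf
import Pool.Agent.H1.MK.Hil

set_option autoImplicit false
set_option linter.unusedSectionVars false
set_option linter.unusedSimpArgs false

/-!
# The projective class group of a group acting on a tree
-/

namespace Pool.Agent.H1.MK

open Matrix TH57.Thr Pool.Agent.K4H37.MT Pool.Agent.H1.MV

section sw

variable {k : Type} [Ring k] {G : Type} [Group G]

/-- Laurent polynomials over the group ring -/
noncomputable def sw (k : Type) [Ring k] (G : Type) [Group G] :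
    MonoidAlgebra (Lau k) G ≃+* Lau (MonoidAlgebra k G) := MonoidAlgebra.commRingEquiv

theorem sw_single (g : G) (m : Multiplicative ℤ) (c : k) :
    sw k G (MonoidAlgebra.single g (MonoidAlgebra.single m c)) =
      MonoidAlgebra.single m (MonoidAlgebra.single g c) :=
  MonoidAlgebra.commRingEquiv_single_single _ _ _

theorem inc_single (H : Subgroup G) (h : H) (c : k) :
    inc k H (MonoidAlgebra.single h c) = MonoidAlgebra.single (h : G) c :=
  MonoidAlgebra.mapDomain_single

theorem sw_inc (H : Subgroup G) (x : MonoidAlgebra (Lau k) H) :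
    sw k G (inc (Lau k) H x) = LF (inc k H) (sw k H x) := by
  induction x using MonoidAlgebra.induction_linear with
  | zero => simp
  | add x y hx hy => rw [map_add, map_add, map_add, map_add, hx, hy]
  | single h r =>
    induction r using MonoidAlgebra.induction_linear with
    | zero => rw [MonoidAlgebra.single_zero]; simp
    | add x y hx hy =>
      rw [MonoidAlgebra.single_add, map_add, map_add, map_add, map_add, hx, hy]
    | single m c => rw [inc_single, sw_single, sw_single, LF_single, inc_single]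

theorem sw_TG (u : (MonoidAlgebra (Lau k) G)ˣ) (hu : u ∈ TG (Lau k) G) :
    Units.map (sw k G).toRingHom.toMonoidHom u ∈ VU (MonoidAlgebra k G) := by
  obtain ⟨g, ε, hu⟩ := hu
  refine ⟨0, tg k g ε, ?_⟩
  change sw k G u.val = _
  have h1 : (((ε : ℤ) : Lau k)) = MonoidAlgebra.single 1 (((ε : ℤ) : k)) := by
    rcases Int.units_eq_one_or ε with h | h <;> subst h <;> simp [MonoidAlgebra.one_def]
  rw [hu, h1, sw_single]
  rfl

end sw

section bd

variable {S : Type} [Ring S] {ι μ : Type} [Fintype ι] [DecidableEq ι] [Fintype μ] [DecidableEq μ]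

theorem bd_spec (u : (Matrix ι ι (Lau S))ˣ) : Bd u (bd S ι u) := (Bd.exists u).choose_spec

theorem bd_inv {u : (Matrix ι ι (Lau S))ˣ} (h : Bd u (1 : KZ S)) : Bd u⁻¹ (1 : KZ S) := by
  have h1 : bd S ι u⁻¹ = 1 := by rw [map_inv, bd_eq h, inv_one]
  have h2 := bd_spec u⁻¹
  rwa [h1] at h2

theorem bd_of_TT {u : (Matrix ι ι (Lau S))ˣ} {w : (Matrix μ μ (Lau S))ˣ}
    (h : TT (VU S) (blockSum u w)) (hw : Bd w (1 : KZ S)) : Bd u (1 : KZ S) := by
  obtain ⟨ν, _, _, h⟩ := h
  have h1 := bd_HH h
  rw [← blockSum_one] at h1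
  have h2 := Bd.bsum (Bd.bsum (bd_spec u) hw) (Bd.one (S := S) (ι := ν))
  have h3 := bd_eq h2
  rw [h1, mul_one, mul_one] at h3
  have h4 := bd_spec u
  rwa [← h3] at h4

theorem bd_empty [IsEmpty ι] (u : (Matrix ι ι (Lau S))ˣ) : Bd u (1 : KZ S) := by
  have : u = 1 := by
    apply Units.ext
    ext1 i
    exact IsEmpty.elim ‹_› i
  rw [this]
  exact Bd.one

end bd

end Pool.Agent.H1.MK
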